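import Pool.Agent.H426.Ru.Noe

/-!
Task T3 for helper426: a proper homogeneous ideal has a homogeneous associated prime.
-/

set_option autoImplicit false

namespace Pool.Agent.H726.Two

open MvPolynomial Finset Module
open Pool.Agent.H426.Ru (HG)

section

attribute [local instance] MvPolynomial.gradedAlgebra

variable {K : Type} [Field K] {n : ℕ}

/-- a finite family of forms generates an ideal with `HG` -/
lemma hg_of_fintype {ι : Type} [Fintype ι] (G : ι → MvPolynomial (Fin n) K) (g : ι → ℕ)
    (hG : ∀ k, (G k).IsHomogeneous (g k)) : HG (Ideal.span (Set.range G)) := by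
  refine ⟨Fintype.card ι, fun k => G ((Fintype.equivFin ι).symm k),
    fun k => g ((Fintype.equivFin ι).symm k), fun k => hG _, ?_⟩
  have h : Set.range (fun k => G ((Fintype.equivFin ι).symm k)) = Set.range G :=
    (Fintype.equivFin ι).symm.surjective.range_comp G
  rw [h]

/-- a homogeneous ideal of the polynomial ring is generated by finitely many forms -/
theorem hg_of_isHomogeneous {I : Ideal (MvPolynomial (Fin n) K)}
    (h : I.IsHomogeneous (homogeneousSubmodule (Fin n) K)) : HG I := by
  have hfg : I.FG := (isNoetherianRing_iff_ideal_fg _).1 inferInstance I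
  obtain ⟨S, hS⟩ := hfg
  obtain ⟨D, hD⟩ : ∃ D : ℕ, ∀ f ∈ S, f.totalDegree < D := by
    refine ⟨S.sup (fun f => f.totalDegree) + 1, fun f hf => ?_⟩
    exact Nat.lt_succ_of_le (Finset.le_sup (f := fun f : MvPolynomial (Fin n) K =>
      f.totalDegree) hf)
  have hcomp : ∀ f ∈ I, ∀ i : ℕ, homogeneousComponent i f ∈ I := by
    intro f hf i
    have h1 := h i hf
    rw [← decomposition.decompose'_apply]
    exact h1
  have key : I = Ideal.span (Set.range (fun p : {f : MvPolynomial (Fin n) K // f ∈ S} × Fin D =>
      homogeneousComponent (p.2 : ℕ) p.1.1)) := by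
    apply le_antisymm
    · conv_lhs => rw [← hS]
      rw [Ideal.span_le]
      intro f hf
      have hsum : f = ∑ i : Fin D, homogeneousComponent (i : ℕ) f := by
        have h1 := sum_homogeneousComponent f
        have h2 : ∑ i ∈ range (f.totalDegree + 1), homogeneousComponent i f =
            ∑ i ∈ range D, homogeneousComponent i f := by
          refine Finset.sum_subset ?_ ?_
          · intro i hi
            rw [Finset.mem_range] at hi ⊢
            have := hD f hf
            omega
          · intro i _ hi
            rw [Finset.mem_range, not_lt] at hi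
            exact homogeneousComponent_eq_zero _ _ (by omega)
        have h3 : ∑ i : Fin D, homogeneousComponent (i : ℕ) f =
            ∑ i ∈ range D, homogeneousComponent i f :=
          Fin.sum_univ_eq_sum_range (fun i => homogeneousComponent i f) D
        exact h1.symm.trans (h2.trans h3.symm)
      have hmem : ∑ i : Fin D, homogeneousComponent (i : ℕ) f ∈
          Ideal.span (Set.range (fun p : {f : MvPolynomial (Fin n) K // f ∈ S} × Fin D =>
            homogeneousComponent (p.2 : ℕ) p.1.1)) := by
        refine Ideal.sum_mem _ (fun i _ => ?_)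
        exact Ideal.subset_span ⟨(⟨f, hf⟩, i), rfl⟩
      exact hsum ▸ hmem
    · rw [Ideal.span_le]
      rintro _ ⟨⟨⟨f, hf⟩, i⟩, rfl⟩
      have hfI : f ∈ I := by
        rw [← hS]
        exact Ideal.subset_span hf
      exact hcomp f hfI i
  rw [key]
  exact hg_of_fintype _ (fun p => (p.2 : ℕ)) (fun p => homogeneousComponent_isHomogeneous _ _)

/-- T3. A proper homogeneous ideal has a homogeneous associated prime. -/
theorem exists_prime_colon {K : Type} [Field K] {q : ℕ} {I : Ideal (MvPolynomial (Fin q) K)}
    (hI : HG I) (hne : I ≠ ⊤) :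
    ∃ (m : MvPolynomial (Fin q) K) (t : ℕ) (P : Ideal (MvPolynomial (Fin q) K)),
      m.IsHomogeneous t ∧ m ∉ I ∧ P.IsPrime ∧ HG P ∧ ∀ a, a ∈ P ↔ m * a ∈ I := by
  have hIh := hI.isHomogeneous
  obtain ⟨P, ⟨m, t, hm, hmI, hP⟩, hmax⟩ := WellFounded.has_min
    (wellFounded_gt (α := Ideal (MvPolynomial (Fin q) K)))
    {P | ∃ (m : MvPolynomial (Fin q) K) (t : ℕ), m.IsHomogeneous t ∧ m ∉ I ∧
      ∀ a, a ∈ P ↔ m * a ∈ I}
    ⟨I, 1, 0, isHomogeneous_one _ _, fun h1 => hne ((Ideal.eq_top_iff_one I).2 h1),
      fun a => by rw [one_mul]⟩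
  have hPh : P.IsHomogeneous (homogeneousSubmodule (Fin q) K) := by
    intro i a ha
    rw [hP] at ha ⊢
    have h1 := hIh (t + i) ha
    rw [DirectSum.coe_decompose_mul_add_of_left_mem (homogeneousSubmodule (Fin q) K)
      (a := m) (b := a) (i := t) (j := i) hm] at h1
    exact h1
  refine ⟨m, t, P, hm, hmI, ?_, hg_of_isHomogeneous hPh, hP⟩
  refine hPh.isPrime_of_homogeneous_mem_or_mem ?_ ?_
  · intro htop
    apply hmI
    have h1 : (1 : MvPolynomial (Fin q) K) ∈ P := by rw [htop]; exact Submodule.mem_top
    rw [hP, mul_one] at h1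
    exact h1
  · rintro x y ⟨s, hx⟩ _ hxy
    by_contra hcon
    push Not at hcon
    obtain ⟨hxP, hyP⟩ := hcon
    -- the colon ideal of `m * x`
    set P' : Ideal (MvPolynomial (Fin q) K) :=
      Submodule.comap (LinearMap.mulLeft (MvPolynomial (Fin q) K) (m * x)) I with hP'
    have hP'mem : ∀ a, a ∈ P' ↔ m * x * a ∈ I := by
      intro a
      rw [hP', Submodule.mem_comap, LinearMap.mulLeft_apply]
    have hx' : x.IsHomogeneous s := hx
    refine hmax P' ⟨m * x, t + s, hm.mul hx', ?_, hP'mem⟩ ?_
    · intro h1
      exact hxP ((hP x).2 h1)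
    · refine lt_of_le_of_ne ?_ ?_
      · intro a ha
        rw [hP] at ha
        rw [hP'mem]
        have h2 : m * x * a = x * (m * a) := by ring
        rw [h2]
        exact I.mul_mem_left x ha
      · intro heq
        apply hyP
        rw [heq, hP'mem, mul_assoc]
        exact (hP _).1 hxy

end

end Pool.Agent.H726.Two
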