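import Pool.Agent.H426.Two.GT
import Pool.Agent.H426.Ru.All

/-!
The inequality for the coordinate hyperplanes and rational points, continued.
-/

set_option autoImplicit false

namespace Pool.Agent.H426.Two

open MvPolynomial Finset Module NumberField IsDedekindDomain Height
open Pool.Agent.W180.OP Pool.Agent.W180.TP Pool.Agent.NH28
open Pool.Agent.TH875 (VM VM_finite not_all form_ub)
open Pool.Agent.H426.Ru (HG noeth main_f cone)

section

variable {K : Type} [Field K] {q : ℕ}

/-- homogeneous primes which contain many variables contain all variables -/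
def Sparse (N : ℕ) (I0 : Ideal (MvPolynomial (Fin q) K)) : Prop :=
  ∀ Q : Ideal (MvPolynomial (Fin q) K), Q.IsPrime → HG Q → I0 ≤ Q →
    (∃ J : Finset (Fin q), N < J.card ∧ ∀ j ∈ J, X j ∈ Q) → ∀ k, X k ∈ Q

lemma aeval_CX {L : Type} [Field L] [Algebra K L] (x : Fin q → L) (p : MvPolynomial (Fin q) K)
    (t : ℕ) (hp : p.IsHomogeneous t) :
    aeval (fun i => Polynomial.C (x i) * Polynomial.X : Fin q → Polynomial L) p =
      Polynomial.C (aeval x p) * Polynomial.X ^ t := by
  rw [aeval_def, aeval_def, eval₂_eq, eval₂_eq, map_sum, Finset.sum_mul]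
  refine Finset.sum_congr rfl fun β hβ => ?_
  have hdeg : β.degree = t := by
    have := hp (mem_support_iff.1 hβ)
    exact (DFunLike.congr_fun (Finsupp.degree_eq_weight_one (σ := Fin q) (R := ℕ)) β).trans this
  rw [map_mul, map_prod, mul_assoc]
  congr 1
  simp only [mul_pow, Finset.prod_mul_distrib, map_pow]
  rw [Finset.prod_pow_eq_pow_sum]
  congr 1
  rw [← hdeg]
  rfl

attribute [local instance] MvPolynomial.gradedAlgebra in
/-- the zero lemma -/
lemma zero_of_vanish {N : ℕ} {I0 : Ideal (MvPolynomial (Fin q) K)} (h0 : HG I0)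
    (hI0 : Sparse N I0) {L : Type} [Field L] [Algebra K L] (x : Fin q → L)
    (hx : ∀ p ∈ I0, aeval x p = 0) (J : Finset (Fin q)) (hJ : N < J.card)
    (hxJ : ∀ j ∈ J, x j = 0) : x = 0 := by
  set φ : MvPolynomial (Fin q) K →ₐ[K] Polynomial L :=
    aeval (fun i => Polynomial.C (x i) * Polynomial.X : Fin q → Polynomial L) with hφ
  have hX : ∀ j, φ (X j) = Polynomial.C (x j) * Polynomial.X := fun j => aeval_X _ _
  have hmem : ∀ p, p ∈ RingHom.ker φ ↔ φ p = 0 := fun p => RingHom.mem_ker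
  have hp : (RingHom.ker φ).IsPrime := RingHom.ker_isPrime φ
  have hh : (RingHom.ker φ).IsHomogeneous (homogeneousSubmodule (Fin q) K) := by
    intro i p hp
    have h9 : (((DirectSum.decompose (homogeneousSubmodule (Fin q) K)) p) i :
        MvPolynomial (Fin q) K) = homogeneousComponent i p := by
      rw [← decomposition.decompose'_apply]
      rfl
    rw [h9]
    have h1 : (φ p).coeff i = aeval x (homogeneousComponent i p) := by
      conv_lhs => rw [← sum_homogeneousComponent p]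
      rw [map_sum, Polynomial.finsetSum_coeff]
      by_cases hi : i ∈ Finset.range (p.totalDegree + 1)
      · rw [Finset.sum_eq_single_of_mem i hi]
        · rw [hφ, aeval_CX x _ i (homogeneousComponent_isHomogeneous i p),
            Polynomial.coeff_C_mul_X_pow, if_pos rfl]
        · intro j _ hj
          rw [hφ, aeval_CX x _ j (homogeneousComponent_isHomogeneous j p),
            Polynomial.coeff_C_mul_X_pow, if_neg (Ne.symm hj)]
      · rw [Finset.sum_eq_zero, homogeneousComponent_eq_zero, map_zero]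
        · rw [Finset.mem_range, not_lt] at hi
          omega
        · intro j hj
          have hij : i ≠ j := fun h => hi (by rw [h]; exact hj)
          rw [hφ, aeval_CX x _ j (homogeneousComponent_isHomogeneous j p),
            Polynomial.coeff_C_mul_X_pow, if_neg hij]
    rw [hmem] at hp ⊢
    rw [hp, Polynomial.coeff_zero] at h1
    show φ (homogeneousComponent i p) = 0
    rw [hφ, aeval_CX x _ i (homogeneousComponent_isHomogeneous i p), ← h1, map_zero, zero_mul]
  have h1 := hI0 _ hp (Pool.Agent.H726.Two.hg_of_isHomogeneous hh) (fun p hp => by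
    rw [hmem]
    exact cone h0 x hx p hp) ⟨J, hJ, fun j hj => by
      rw [hmem, hX, hxJ j hj, map_zero, zero_mul]⟩
  ext k
  have h2 := h1 k
  rw [hmem, hX, mul_eq_zero, Polynomial.C_eq_zero] at h2
  exact h2.resolve_right Polynomial.X_ne_zero

end

variable {K : Type} [Field K] [NumberField K] {q : ℕ}

/-- few large local heights -/
lemma sparse {N : ℕ} {I0 : Ideal (MvPolynomial (Fin q) K)} (h0 : HG I0) (hI0 : Sparse N I0) :
    ∃ Cs : ℝ, 0 ≤ Cs ∧ ∀ (v : Pl K) (y : Fin q → K), (∀ j, y j ≠ 0) →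
      (∀ p ∈ I0, aeval y p = 0) →
      (Finset.univ.filter fun j => max (lc v y j - Cs) 0 ≠ 0).card ≤ N := by
  classical
  have h0' := h0
  obtain ⟨m, G, g, hG, hI⟩ := h0
  have hvan : ∀ (L : Type) [Field L] [Algebra K L] (x : Fin q → L), (∀ k, aeval x (G k) = 0) →
      ∀ p ∈ I0, aeval x p = 0 := by
    intro L _ _ x hx p hp
    rw [hI] at hp
    refine Submodule.span_induction (p := fun p _ => aeval x p = 0) ?_ ?_ ?_ ?_ hp
    · rintro _ ⟨k, rfl⟩
      exact hx k
    · exact map_zero _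
    · intro a b _ _ ha hb
      rw [map_add, ha, hb, add_zero]
    · intro a b _ hb
      rw [smul_eq_mul, map_mul, hb, mul_zero]
  choose C hC0 hC using fun f : Fin (N + 1) ↪ Fin q => not_all (r := N + 1) (D := 1)
    (Nat.succ_pos N) G g hG (fun k => (X (f k) : MvPolynomial (Fin q) K))
    (fun k => isHomogeneous_X K (f k)) (by
      intro L _ _ x hx hy
      refine zero_of_vanish h0' hI0 x (hvan L x hx) (Finset.univ.map f) ?_ ?_
      · rw [Finset.card_map, Finset.card_univ, Fintype.card_fin]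
        exact Nat.lt_succ_self N
      · intro j hj
        obtain ⟨k, _, rfl⟩ := Finset.mem_map.1 hj
        have := hy k
        rwa [aeval_X] at this)
  have hCs : 0 ≤ ∑ f, C f := Finset.sum_nonneg fun f _ => hC0 f
  refine ⟨(∑ f, C f) * finrank ℚ K, by positivity, fun v y hy hyI => ?_⟩
  by_contra hcon
  push Not at hcon
  obtain ⟨T, hT, hTc⟩ := Finset.exists_subset_card_eq hcon
  set f : Fin (N + 1) ↪ Fin q := (T.orderEmbOfFin hTc).toEmbedding with hf
  have hy0 : y ≠ 0 := by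
    intro h
    exact hy (f 0) (by rw [h]; rfl)
  obtain ⟨k, hk⟩ := hC f K v y hy0 (fun k => hyI _ (by rw [hI]; exact Ideal.subset_span ⟨k, rfl⟩))
    (fun k => by rw [aeval_X]; exact hy _)
  rw [← lc_eq v (f k) (hy _)] at hk
  have h1 : f k ∈ T := Finset.orderEmbOfFin_mem T hTc k
  have h2 := (Finset.mem_filter.1 (hT h1)).2
  refine h2 (max_eq_right ?_)
  have h3 : C f ≤ ∑ f, C f := Finset.single_le_sum (f := C) (fun f _ => hC0 f) (Finset.mem_univ _)
  have h4 : C f * finrank ℚ K ≤ (∑ f, C f) * finrank ℚ K :=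
    mul_le_mul_of_nonneg_right h3 (Nat.cast_nonneg _)
  linarith

/-- the bound for a prime ideal without variables -/
lemma prime_bound {N : ℕ} {I0 : Ideal (MvPolynomial (Fin q) K)} (h0 : HG I0) (hI0 : Sparse N I0)
    {P : Ideal (MvPolynomial (Fin q) K)} (hP : HG P) (hp : P.IsPrime) (hle : I0 ≤ P)
    (hX : ∀ j, X j ∉ P) (k0 : Fin q) {ε : ℝ} (hε : 0 < ε) :
    ∃ Z : MvPolynomial (Fin q) K, Z ∉ P ∧ (∃ t, Z.IsHomogeneous t) ∧
      ∀ S : Finset (Pl K), ∃ C : ℝ, 0 ≤ C ∧ ∀ y : Fin q → K, (∀ j, y j ≠ 0) →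
        (∀ p ∈ P, aeval y p = 0) → aeval y Z ≠ 0 →
        ∑ v ∈ S, ∑ j, lc v y j ≤ (2 * N + ε) * logHeight y + C := by
  classical
  obtain ⟨C1, hC10, hb⟩ := basis_ineq hP hp hX k0
  obtain ⟨M0, hM0⟩ := claim I0 hI0 P hP hp hle ⟨k0, hX k0⟩ (ε / 2) (by positivity)
  obtain ⟨Cs, hCs0, hCs⟩ := sparse h0 hI0
  choose Cl hCl0 hCl using fun j : Fin q => sum_lc_le (K := K) j
  have hCls : 0 ≤ ∑ j, Cl j := Finset.sum_nonneg fun t _ => hCl0 t
  set A : ℝ := (2 * N + ε / 2) * (C1 + 1) with hA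
  have hA0 : 0 ≤ A := by positivity
  set M : ℕ := M0 + 1 + ⌈A / (ε / 2)⌉₊ with hM
  have hM1 : (1 : ℝ) ≤ M := by
    have : 1 ≤ M := by omega
    exact_mod_cast this
  have hMA : A ≤ ε / 2 * M := by
    have h5 : A / (ε / 2) ≤ ⌈A / (ε / 2)⌉₊ := Nat.le_ceil _
    have h6 : ((⌈A / (ε / 2)⌉₊ : ℕ) : ℝ) ≤ M := by
      have : ⌈A / (ε / 2)⌉₊ ≤ M := by omega
      exact_mod_cast this
    rw [div_le_iff₀ (by positivity)] at h5
    nlinarith
  obtain ⟨Z, hZ, hZt, hb⟩ := hb M
  refine ⟨Z, hZ, hZt, fun S => ?_⟩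
  obtain ⟨C, hC0, hC⟩ := hb S
  refine ⟨(2 * N + ε / 2) * (C + M * ∑ j, Cl j) + S.card * (q * Cs), by positivity,
    fun y hy hyP hyZ => ?_⟩
  have hh := logHeight_nonneg y
  set h : ℝ := logHeight y with hhd
  have hlc0 : ∀ v j, 0 ≤ lc v y j := fun v j => lc_nonneg v j (hy j)
  set x : ℝ := ((M + C1 + 1) * h + (C + M * ∑ j, Cl j)) / M with hx
  have hM0' : (0 : ℝ) < M := by linarith
  have hxM : x * M = (M + C1 + 1) * h + (C + M * ∑ j, Cl j) := by
    rw [hx, div_mul_cancel₀ _ hM0'.ne']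
  have hx0 : 0 ≤ x := by rw [hx]; positivity
  have ha0 : ∀ v j, max (lc v y j - Cs) 0 ≤ lc v y j := fun v j =>
    max_le (by linarith) (hlc0 v j)
  have hFam : Fam N P M (W := S) (fun v j => max (lc v.1 y j - Cs) 0) x := by
    refine ⟨hx0, fun v j => le_max_right _ _, fun v => hCs v.1 y hy fun p hp => hyP p (hle hp),
      fun j _ => ?_, fun τ hτ => ?_⟩
    · have h1 : ∑ v : S, max (lc v.1 y j - Cs) 0 ≤ ∑ v : S, lc v.1 y j :=
        Finset.sum_le_sum fun v _ => ha0 v.1 j
      rw [Finset.sum_coe_sort S (fun v => lc v y j)] at h1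
      have h2 := hCl j S y (hy j)
      have h3 : Cl j ≤ ∑ j, Cl j :=
        Finset.single_le_sum (f := Cl) (fun t _ => hCl0 t) (Finset.mem_univ _)
      refine h1.trans (h2.trans ?_)
      rw [hx, le_div_iff₀ hM0']
      have h4 : 0 ≤ C1 * h := by positivity
      nlinarith
    · have h1 := hC y hy hyP hyZ (fun v => if hv : v ∈ S then τ ⟨v, hv⟩ else fun _ => 0) (by
        intro v
        by_cases hv : v ∈ S
        · rw [dif_pos hv]
          exact hτ _
        · rw [dif_neg hv]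
          exact HasB.zero P M)
      rw [← Finset.sum_coe_sort S] at h1
      have h2 : ∑ v : S, ∑ j, (τ v j : ℝ) * max (lc v.1 y j - Cs) 0 ≤
          ∑ v : S, ∑ j, (((if hv : v.1 ∈ S then τ ⟨v.1, hv⟩ else fun _ => 0 : Fin q → ℕ) j : ℕ) : ℝ) *
            lc v.1 y j := by
        refine Finset.sum_le_sum fun v _ => Finset.sum_le_sum fun j _ => ?_
        rw [dif_pos v.2]
        exact mul_le_mul_of_nonneg_left (ha0 v.1 j) (Nat.cast_nonneg _)
      refine h2.trans (h1.trans ?_)
      have h3 : x * (M * (finrank K (VM P M) : ℝ)) = finrank K (VM P M) * (x * M) := by ring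
      rw [h3, hxM]
      refine mul_le_mul_of_nonneg_left ?_ (Nat.cast_nonneg _)
      have : 0 ≤ M * ∑ j, Cl j := by positivity
      linarith
  have hmain := hM0 M (by omega) S _ x hFam
  have hJo : Jo P = Finset.univ := by
    ext j
    simp [mem_Jo, hX j]
  have hJi : Ji P = ∅ := by
    ext j
    simp [mem_Ji, hX j]
  rw [hJo, hJi, Finset.card_empty, Finset.sum_comm] at hmain
  have h1 : ∑ v ∈ S, ∑ j, lc v y j ≤ ∑ v : S, ∑ j, (max (lc v.1 y j - Cs) 0 + Cs) := by
    rw [← Finset.sum_coe_sort S]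
    refine Finset.sum_le_sum fun v _ => Finset.sum_le_sum fun j _ => ?_
    have := le_max_left (lc v.1 y j - Cs) 0
    linarith
  have h2 : ∑ v : S, ∑ j, (max (lc v.1 y j - Cs) 0 + Cs) =
      ∑ v : S, ∑ j, max (lc v.1 y j - Cs) 0 + S.card * (q * Cs) := by
    simp only [Finset.sum_add_distrib, Finset.sum_const, Finset.card_univ, Fintype.card_fin,
      Fintype.card_coe, nsmul_eq_mul]
  rw [h2] at h1
  have h3 : (2 * N + ε / 2) * x ≤ (2 * N + ε) * h + (2 * N + ε / 2) * (C + M * ∑ j, Cl j) := by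
    rw [hx, ← mul_div_assoc, div_le_iff₀ hM0']
    have h4 : A * h ≤ ε / 2 * M * h := mul_le_mul_of_nonneg_right hMA hh
    have h5 : 0 ≤ (2 * N + ε / 2) * (C + M * ∑ j, Cl j) := by positivity
    have h6 : (2 * N + ε / 2) * (C + M * ∑ j, Cl j) ≤
        (2 * N + ε / 2) * (C + M * ∑ j, Cl j) * M := le_mul_of_one_le_right h5 hM1
    have h7 : (2 * N + ε / 2) * ((M + C1 + 1) * h + (C + M * ∑ j, Cl j)) =
        (2 * N + ε / 2) * M * h + A * h + (2 * N + ε / 2) * (C + M * ∑ j, Cl j) := by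
      rw [hA]; ring
    rw [h7]
    nlinarith
  simp only [Nat.cast_zero, sub_zero] at hmain
  linarith

/-- **The inequality for the coordinate hyperplanes and rational points.** -/
theorem gt {N : ℕ} {I0 : Ideal (MvPolynomial (Fin q) K)} (h0 : HG I0) (hI0 : Sparse N I0)
    {ε : ℝ} (hε : 0 < ε) (S : Finset (Pl K)) :
    ∃ C : ℝ, 0 ≤ C ∧ ∀ y : Fin q → K, (∀ j, y j ≠ 0) → (∀ p ∈ I0, aeval y p = 0) →
      ∑ v ∈ S, ∑ j, lc v y j ≤ (2 * N + ε) * logHeight y + C := by
  classical
  rcases Nat.eq_zero_or_pos q with hq | hq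
  · subst hq
    refine ⟨0, le_rfl, fun y _ _ => ?_⟩
    have := logHeight_nonneg y
    simp only [Finset.univ_eq_empty, Finset.sum_empty, Finset.sum_const_zero, add_zero]
    positivity
  refine noeth (fun I => ∃ C : ℝ, 0 ≤ C ∧ ∀ y : Fin q → K, (∀ j, y j ≠ 0) →
    (∀ p ∈ I, aeval y p = 0) → ∑ v ∈ S, ∑ j, lc v y j ≤ (2 * N + ε) * logHeight y + C) I0 h0 ?_ ?_ ?_
  · refine ⟨0, le_rfl, fun y _ h => ?_⟩
    exact absurd (h 1 Submodule.mem_top) (by rw [map_one]; exact one_ne_zero)
  · intro P hP hp hle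
    by_cases hX : ∃ j, X j ∈ P
    · obtain ⟨j, hj⟩ := hX
      refine ⟨1, 0, isHomogeneous_one _ _, fun h => hp.ne_top ((Ideal.eq_top_iff_one P).2 h),
        fun _ => ⟨0, le_rfl, fun y hy h => ?_⟩⟩
      have := h _ hj
      rw [aeval_X] at this
      exact absurd this (hy j)
    · push Not at hX
      obtain ⟨Z, hZ, ⟨t, hZt⟩, hb⟩ := prime_bound h0 hI0 hP hp hle hX ⟨0, hq⟩ hε
      refine ⟨Z, t, hZt, hZ, ?_⟩
      rintro ⟨C2, hC2, h2⟩
      obtain ⟨C1, hC1, h1⟩ := hb S
      refine ⟨C1 + C2, by positivity, fun y hy hyP => ?_⟩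
      by_cases hyZ : aeval y Z = 0
      · have h3 := h2 y hy (by
          intro p hp
          rw [sup_comm, Ideal.mem_span_singleton_sup] at hp
          obtain ⟨a, b, hb, rfl⟩ := hp
          rw [map_add, map_mul, hyZ, mul_zero, hyP b hb, add_zero])
        linarith
      · have h3 := h1 y hy hyP hyZ
        linarith
  · intro I a b hI hle hab h1 h2
    obtain ⟨C1, hC1, h1⟩ := h1
    obtain ⟨C2, hC2, h2⟩ := h2
    refine ⟨C1 + C2, by positivity, fun y hy hyI => ?_⟩
    have h3 := hyI _ hab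
    rw [map_mul, mul_eq_zero] at h3
    rcases h3 with h3 | h3
    · have h4 := h1 y hy (by
        intro p hp
        rw [sup_comm, Ideal.mem_span_singleton_sup] at hp
        obtain ⟨a, b, hb, rfl⟩ := hp
        rw [map_add, map_mul, h3, mul_zero, hyI b hb, add_zero])
      linarith
    · have h4 := h2 y hy (by
        intro p hp
        rw [sup_comm, Ideal.mem_span_singleton_sup] at hp
        obtain ⟨a, b, hb, rfl⟩ := hp
        rw [map_add, map_mul, h3, mul_zero, hyI b hb, add_zero])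
      linarith

end Pool.Agent.H426.Two
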