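import Pool.Agent.H426.Two.Red

/-!
Hypersurfaces of arbitrary degrees, arbitrary finite sets of places above a finite set.
-/

set_option autoImplicit false

namespace Pool.Agent.H426.Two

open MvPolynomial Finset Module NumberField IsDedekindDomain Height
open Pool.Agent.W180.OP Pool.Agent.W180.TP Pool.Agent.NH28
open Pool.Agent.TH875 (form_ub)

section

variable {K : Type} [Field K] [NumberField K]

/-- **The inequality for hypersurfaces of any degrees and all points of degree at most `r`.** -/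
theorem gen {n m q N r : ℕ}
    (G : Fin m → MvPolynomial (Fin n) K) (g : Fin m → ℕ) (hG : ∀ k, (G k).IsHomogeneous (g k))
    (F : Fin q → MvPolynomial (Fin n) K) (d : Fin q → ℕ) (hd : ∀ i, 1 ≤ d i)
    (hF : ∀ i, (F i).IsHomogeneous (d i))
    (hgp : ∀ J : Fin (N + 1) ↪ Fin q, ∀ (E : Type) [Field E] [Algebra K E] (x : Fin n → E),
      (∀ k, aeval x (G k) = 0) → (∀ k, aeval x (F (J k)) = 0) → x = 0) {ε : ℝ} (hε : 0 < ε)
    (S : Finset (Pl K)) :
    ∃ C : ℝ, 0 ≤ C ∧ ∀ (L : Type) [Field L] [NumberField L] [Algebra K L], finrank K L ≤ r →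
      ∀ x : Fin n → L, x ≠ 0 → (∀ k, aeval x (G k) = 0) → (∀ j, aeval x (F j) ≠ 0) →
      ∀ T : Finset (Pl L), (∀ w ∈ T, ∃ v ∈ S, Ov v w) →
      ∑ w ∈ T, wt w * ∑ j, lam (av w) (d j) (bc L (F j)) x / d j ≤
        (2 * (N * finrank K L) + ε) * logHeight x + C := by
  classical
  set e : ℕ := ∏ i, d i with he
  have he1 : 1 ≤ e := Finset.one_le_prod' fun i _ => hd i
  have hdvd : ∀ i, d i ∣ e := fun i => Finset.dvd_prod_of_mem d (Finset.mem_univ i)
  choose c hc using hdvd
  have hF' : ∀ i, (F i ^ c i).IsHomogeneous e := fun i => by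
    have := (hF i).pow (c i)
    rwa [← hc i] at this
  have hc0 : ∀ i, c i ≠ 0 := by
    intro i h
    have := hc i
    rw [h, mul_zero] at this
    omega
  obtain ⟨C, hC0, hC⟩ := red_r (r := r) (N := N) he1 G g hG (fun i => F i ^ c i) hF' (by
    intro J E _ _ x h1 h2
    refine hgp J E x h1 fun k => ?_
    have := h2 k
    rw [map_pow] at this
    exact (pow_eq_zero_iff (hc0 _)).1 this) hε S
  choose Cf hCf0 hCf using fun i => form_ub (F i) (hF i)
  have hCfs : 0 ≤ ∑ i, Cf i := Finset.sum_nonneg fun i _ => hCf0 i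
  refine ⟨C + S.card * r * ((∑ i, Cf i) * (finrank ℚ K * r)), by positivity,
    fun L _ _ _ hL x hx hGx hFx T hT => ?_⟩
  have h1 := hC L hL x hx hGx (fun i => by rw [map_pow]; exact pow_ne_zero _ (hFx i))
  have he0 : (0 : ℝ) < e := by exact_mod_cast he1
  have he1' : (1 : ℝ) ≤ e := by exact_mod_cast he1
  have hd0 : ∀ i, (1 : ℝ) ≤ d i := fun i => by exact_mod_cast hd i
  have hlam : ∀ (w : Pl L) (i : Fin q), lam (av w) e (bc L (F i ^ c i)) x =
      e * (lam (av w) (d i) (bc L (F i)) x / d i) := by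
    intro w i
    have h2 : eval x (bc L (F i)) = aeval x (F i) := eval_bc _ _
    have h3 : eval x (bc L (F i ^ c i)) = aeval x (F i) ^ c i := by rw [eval_bc, map_pow]
    have h4 := hd0 i
    have h5 : (e : ℝ) = d i * c i := by exact_mod_cast hc i
    rw [lam_eq (av w) e _ hx (by rw [h3]; exact pow_ne_zero _ (hFx i)), h3,
      lam_eq (av w) (d i) _ hx (by rw [h2]; exact hFx i), h2, map_pow, Real.log_pow, h5]
    field_simp
  set f : Pl L → ℝ := fun w => wt w * ∑ j, lam (av w) (d j) (bc L (F j)) x / d j with hf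
  have h2 : ∑ v ∈ S, ∑ w ∈ ab L v, wt w * ∑ j, lam (av w) e (bc L (F j ^ c j)) x =
      e * ∑ v ∈ S, ∑ w ∈ ab L v, f w := by
    rw [Finset.mul_sum]
    refine Finset.sum_congr rfl fun v _ => ?_
    rw [Finset.mul_sum]
    refine Finset.sum_congr rfl fun w _ => ?_
    rw [hf]
    simp only [hlam]
    rw [← Finset.mul_sum]
    ring
  rw [h2] at h1
  have h3 : ∑ v ∈ S, ∑ w ∈ ab L v, f w ≤ (2 * (N * finrank K L) + ε) * logHeight x + C := by
    have h4 : C ≤ e * C := le_mul_of_one_le_left hC0 he1'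
    refine le_of_mul_le_mul_left ?_ he0
    linarith
  -- the places outside `T`
  have hfq : (finrank ℚ L : ℝ) ≤ finrank ℚ K * r := by
    have h4 : finrank ℚ K * finrank K L = finrank ℚ L := finrank_mul_finrank ℚ K L
    rw [← h4]
    push_cast
    exact mul_le_mul_of_nonneg_left (by exact_mod_cast hL) (Nat.cast_nonneg _)
  set B : ℝ := (∑ i, Cf i) * (finrank ℚ K * r) with hB
  have hB0 : 0 ≤ B := by positivity
  have hfB : ∀ w, -B ≤ f w := by
    intro w
    rw [hf]
    simp only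
    rw [Finset.mul_sum, neg_le, ← Finset.sum_neg_distrib, hB, Finset.sum_mul]
    refine Finset.sum_le_sum fun i _ => ?_
    have h4 := hCf i L w x hx (hFx i)
    have h5 : Cf i * finrank ℚ L ≤ Cf i * (finrank ℚ K * r) :=
      mul_le_mul_of_nonneg_left hfq (hCf0 i)
    have h6 : 0 ≤ Cf i * (finrank ℚ K * r) := mul_nonneg (hCf0 i) (by positivity)
    have h7 : -(wt w * (lam (av w) (d i) (bc L (F i)) x / d i)) =
        -(wt w * lam (av w) (d i) (bc L (F i)) x) / d i := by ring
    rw [h7, div_le_iff₀ (by have := hd0 i; linarith)]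
    have h8 : Cf i * (finrank ℚ K * r) ≤ Cf i * (finrank ℚ K * r) * d i :=
      le_mul_of_one_le_right h6 (hd0 i)
    linarith
  set U : Finset (Pl L) := S.biUnion fun v => ab L v with hU
  have hsumU : ∑ v ∈ S, ∑ w ∈ ab L v, f w = ∑ w ∈ U, f w := by
    rw [hU, Finset.sum_biUnion]
    intro v _ v' _ hne
    rw [Function.onFun, Finset.disjoint_left]
    intro w hw hw'
    exact hne (ov_unique (mem_ab.1 hw) (mem_ab.1 hw'))
  have hTU : T ⊆ U := by
    intro w hw
    obtain ⟨v, hv, hvw⟩ := hT w hw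
    exact Finset.mem_biUnion.2 ⟨v, hv, mem_ab.2 hvw⟩
  have hcardU : (U.card : ℝ) ≤ S.card * r := by
    have h4 : U.card ≤ ∑ v ∈ S, (ab L v).card := Finset.card_biUnion_le
    have h5 : ∑ v ∈ S, (ab L v).card ≤ ∑ _v ∈ S, r :=
      Finset.sum_le_sum fun v _ => (card_ab_le L v).trans hL
    rw [Finset.sum_const, smul_eq_mul] at h5
    exact_mod_cast h4.trans h5
  have hTf : ∑ w ∈ T, f w ≤ ∑ w ∈ U, f w + U.card * B := by
    have h4 : ∑ w ∈ T, (f w + B) ≤ ∑ w ∈ U, (f w + B) :=
      Finset.sum_le_sum_of_subset_of_nonneg hTU fun w _ _ => by linarith [hfB w]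
    rw [Finset.sum_add_distrib, Finset.sum_add_distrib, Finset.sum_const, Finset.sum_const,
      nsmul_eq_mul, nsmul_eq_mul] at h4
    have h5 : 0 ≤ (T.card : ℝ) * B := by positivity
    linarith
  rw [hsumU] at h3
  have h4 : (U.card : ℝ) * B ≤ S.card * r * B := mul_le_mul_of_nonneg_right hcardU hB0
  linarith

end

end Pool.Agent.H426.Two
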