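import Pool.Agent.H426.Ru.Noe

/-!
Bases of the graded pieces of a quotient of the polynomial ring which consist of products of
variables and forms.
-/

set_option autoImplicit false

namespace Pool.Agent.H426.Two

open MvPolynomial Finset Module
open Pool.Agent.TH875 (VM)
open Pool.Agent.H426.Ru (HG)

/-- `HasB I M τ`: the degree `M` part of `K[X]/I` has a basis consisting of the classes of forms
`(∏ j, X j ^ α s j) * g s` (with `g s` a form) with total exponent `τ j = ∑ s, α s j`. -/
def HasB {K : Type} [Field K] {q : ℕ} (I : Ideal (MvPolynomial (Fin q) K)) (M : ℕ)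
    (τ : Fin q → ℕ) : Prop :=
  ∃ (κ : Type) (_ : Fintype κ) (α : κ → Fin q → ℕ) (e : κ → ℕ) (g : κ → MvPolynomial (Fin q) K),
    (∀ s, (g s).IsHomogeneous (e s) ∧ ∑ j, α s j + e s = M) ∧
    LinearIndependent K (fun s => Ideal.Quotient.mkₐ K I ((∏ j, X j ^ α s j) * g s)) ∧
    Fintype.card κ = finrank K (VM I M) ∧ ∀ j, ∑ s, α s j = τ j

end Pool.Agent.H426.Two
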