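import Pool.Agent.H426.Two.Defs
import Pool.Graph.R_seed8.TH875.Cm4

/-!
One step of a prime filtration: dimensions and bases.
-/

set_option autoImplicit false

namespace Pool.Agent.H190.TW.TwoT2

open MvPolynomial Finset Module
open Pool.Agent.TH875 (VM VM_finite exists_sec)
open Pool.Agent.H426.Ru (HG)
open Pool.Agent.H426.Two

section

variable {K : Type} [Field K] {q : ℕ} {I P : Ideal (MvPolynomial (Fin q) K)}
  {m : MvPolynomial (Fin q) K}

lemma mk_eq_zero (I : Ideal (MvPolynomial (Fin q) K)) (p : MvPolynomial (Fin q) K) :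
    Ideal.Quotient.mkₐ K I p = 0 ↔ p ∈ I := by
  rw [Ideal.Quotient.mkₐ_eq_mk]
  exact Ideal.Quotient.eq_zero_iff_mem

/-- independence of the combined family -/
lemma indep (hP : ∀ a, a ∈ P ↔ m * a ∈ I) {κ' κ : Type} [Fintype κ'] [Fintype κ]
    {b' : κ' → MvPolynomial (Fin q) K} {b : κ → MvPolynomial (Fin q) K}
    (h' : LinearIndependent K fun s => Ideal.Quotient.mkₐ K (I ⊔ Ideal.span {m}) (b' s))
    (h : LinearIndependent K fun s => Ideal.Quotient.mkₐ K P (b s)) :
    LinearIndependent K (fun s : κ' ⊕ κ => Ideal.Quotient.mkₐ K I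
      (Sum.elim b' (fun s => m * b s) s)) := by
  rw [Fintype.linearIndependent_iff] at h' h ⊢
  intro c hc
  have h1 : (∑ s, c (Sum.inl s) • b' s) + m * ∑ s, c (Sum.inr s) • b s ∈ I := by
    rw [← mk_eq_zero, ← hc, Fintype.sum_sum_type, map_add, map_sum, Finset.mul_sum, map_sum]
    simp only [Sum.elim_inl, Sum.elim_inr, map_smul, mul_smul_comm]
  have h2 : (∑ s, c (Sum.inl s) • b' s) ∈ I ⊔ Ideal.span {m} := by
    have h3 : m * ∑ s, c (Sum.inr s) • b s ∈ I ⊔ Ideal.span {m} :=
      Ideal.mem_sup_right (Ideal.mul_mem_right _ _ (Ideal.subset_span rfl))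
    have h4 := Ideal.sub_mem _ (Ideal.mem_sup_left h1 : _ ∈ I ⊔ Ideal.span {m}) h3
    rwa [add_sub_cancel_right] at h4
  have h5 : ∀ s, c (Sum.inl s) = 0 := by
    refine h' (fun s => c (Sum.inl s)) ?_
    rw [← mk_eq_zero, map_sum] at h2
    rw [← h2]
    simp only [map_smul]
  have h6 : (∑ s, c (Sum.inr s) • b s) ∈ P := by
    rw [hP]
    simpa only [h5, zero_smul, Finset.sum_const_zero, zero_add] using h1
  have h7 : ∀ s, c (Sum.inr s) = 0 := by
    refine h (fun s => c (Sum.inr s)) ?_
    rw [← mk_eq_zero, map_sum] at h6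
    rw [← h6]
    simp only [map_smul]
  rintro (s | s)
  · exact h5 s
  · exact h7 s

attribute [local instance] MvPolynomial.gradedAlgebra

/-- a form in `I + (m)` is `m a` modulo `I` with a form `a` -/
lemma hom_quot (hI : HG I) {t : ℕ} (hm : m.IsHomogeneous t) {M : ℕ} (ht : t ≤ M)
    {h : MvPolynomial (Fin q) K} (hh : h.IsHomogeneous M) (hmem : h ∈ I ⊔ Ideal.span {m}) :
    ∃ a : MvPolynomial (Fin q) K, a.IsHomogeneous (M - t) ∧ h - m * a ∈ I := by
  obtain ⟨y, hy, z, hz, hyz⟩ := Submodule.mem_sup.1 hmem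
  obtain ⟨a, ha⟩ := Ideal.mem_span_singleton'.1 hz
  have h1 : h - m * a ∈ I := by
    rw [← hyz, ← ha, mul_comm a m, add_sub_cancel_right]
    exact hy
  refine ⟨(DirectSum.decompose (homogeneousSubmodule (Fin q) K) a (M - t) :
    MvPolynomial (Fin q) K), (DirectSum.decompose (homogeneousSubmodule (Fin q) K) a (M - t)).2, ?_⟩
  have h2 := hI.isHomogeneous M h1
  rw [DirectSum.decompose_sub, DirectSum.sub_apply, AddSubgroupClass.coe_sub,
    DirectSum.decompose_of_mem_same _ (show h ∈ homogeneousSubmodule (Fin q) K M from hh),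
    DirectSum.coe_decompose_mul_of_left_mem_of_le (homogeneousSubmodule (Fin q) K)
      (show m ∈ homogeneousSubmodule (Fin q) K t from hm) ht] at h2
  exact h2

lemma mem_VM {I : Ideal (MvPolynomial (Fin q) K)} {M : ℕ} {p : MvPolynomial (Fin q) K}
    (hp : p.IsHomogeneous M) : Ideal.Quotient.mkₐ K I p ∈ VM I M := ⟨p, hp, rfl⟩

lemma finrank_eq (hI : HG I) {t : ℕ} (hm : m.IsHomogeneous t) (hP : ∀ a, a ∈ P ↔ m * a ∈ I)
    {M : ℕ} (ht : t ≤ M) :
    finrank K (VM I M) = finrank K (VM (I ⊔ Ideal.span {m}) M) + finrank K (VM P (M - t)) := by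
  have := VM_finite I M
  have := VM_finite (I ⊔ Ideal.span {m}) M
  have := VM_finite P (M - t)
  obtain ⟨sec', hsec'⟩ := exists_sec (I ⊔ Ideal.span {m}) M
  obtain ⟨sec, hsec⟩ := exists_sec P (M - t)
  set B' := Module.finBasis K (VM (I ⊔ Ideal.span {m}) M) with hB'
  set B := Module.finBasis K (VM P (M - t)) with hB
  have hi' : LinearIndependent K fun s => Ideal.Quotient.mkₐ K (I ⊔ Ideal.span {m})
      (sec' (B' s)) := by
    have h1 := B'.linearIndependent.map' (VM (I ⊔ Ideal.span {m}) M).subtype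
      (Submodule.ker_subtype _)
    simp only [(hsec' _).2]
    exact h1
  have hi : LinearIndependent K fun s => Ideal.Quotient.mkₐ K P (sec (B s)) := by
    have h1 := B.linearIndependent.map' (VM P (M - t)).subtype (Submodule.ker_subtype _)
    simp only [(hsec _).2]
    exact h1
  have hind := indep hP hi' hi
  have hhom : ∀ s : Fin _ ⊕ Fin _, (Sum.elim (fun s => sec' (B' s)) (fun s => m * sec (B s)) s :
      MvPolynomial (Fin q) K).IsHomogeneous M := by
    rintro (s | s)
    · exact (hsec' _).1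
    · have h1 := hm.mul (hsec (B s)).1
      rw [Nat.add_sub_cancel' ht] at h1
      exact h1
  let v : Fin _ ⊕ Fin _ → VM I M := fun s =>
    ⟨Ideal.Quotient.mkₐ K I (Sum.elim (fun s => sec' (B' s)) (fun s => m * sec (B s)) s),
      mem_VM (hhom s)⟩
  have hv : LinearIndependent K v :=
    LinearIndependent.of_comp (VM I M).subtype hind
  have hspan : ⊤ ≤ Submodule.span K (Set.range v) := by
    rintro ⟨_, p, hp, rfl⟩ -
    have hp' : p.IsHomogeneous M := hp
    -- coordinates
    set x : VM (I ⊔ Ideal.span {m}) M := ⟨Ideal.Quotient.mkₐ K _ p, mem_VM hp'⟩ with hx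
    have hxs := B'.sum_repr x
    set h : MvPolynomial (Fin q) K := p - ∑ s, B'.repr x s • sec' (B' s) with hh
    have hhM : h.IsHomogeneous M := by
      refine hp'.sub (IsHomogeneous.sum _ _ _ fun s _ => ?_)
      rw [smul_eq_C_mul]
      have h1 := (isHomogeneous_C (Fin q) (B'.repr x s)).mul (hsec' (B' s)).1
      rwa [zero_add] at h1
    have hmem : h ∈ I ⊔ Ideal.span {m} := by
      rw [← mk_eq_zero, hh, map_sub, map_sum]
      have h1 := congrArg Subtype.val hxs
      rw [AddSubmonoidClass.coe_finsetSum] at h1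
      simp only [map_smul, (hsec' _).2]
      rw [sub_eq_zero]
      exact h1.symm
    obtain ⟨a, ha, ha2⟩ := hom_quot hI hm ht hhM hmem
    set y : VM P (M - t) := ⟨Ideal.Quotient.mkₐ K _ a, mem_VM ha⟩ with hy
    have hys := B.sum_repr y
    have hmem2 : a - ∑ s, B.repr y s • sec (B s) ∈ P := by
      rw [← mk_eq_zero, map_sub, map_sum]
      have h1 := congrArg Subtype.val hys
      rw [AddSubmonoidClass.coe_finsetSum] at h1
      simp only [map_smul, (hsec _).2]
      rw [sub_eq_zero]
      exact h1.symm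
    rw [hP] at hmem2
    have hfin : p - (∑ s, B'.repr x s • sec' (B' s) + ∑ s, B.repr y s • (m * sec (B s))) ∈ I := by
      have h1 := Ideal.add_mem _ ha2 hmem2
      have h2 : h - m * a + m * (a - ∑ s, B.repr y s • sec (B s)) =
          p - (∑ s, B'.repr x s • sec' (B' s) + ∑ s, B.repr y s • (m * sec (B s))) := by
        rw [hh, mul_sub, Finset.mul_sum]
        simp only [mul_smul_comm]
        ring
      rwa [h2] at h1
    rw [← mk_eq_zero, map_sub, sub_eq_zero] at hfin
    have hfin2 : (⟨Ideal.Quotient.mkₐ K I p, mem_VM hp'⟩ : VM I M) =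
        ∑ s, B'.repr x s • v (Sum.inl s) + ∑ s, B.repr y s • v (Sum.inr s) := by
      refine Subtype.ext ?_
      rw [Submodule.coe_add, AddSubmonoidClass.coe_finsetSum, AddSubmonoidClass.coe_finsetSum]
      show Ideal.Quotient.mkₐ K I p = _
      rw [hfin, map_add, map_sum, map_sum]
      simp only [map_smul]
      rfl
    show (⟨Ideal.Quotient.mkₐ K I p, mem_VM hp'⟩ : VM I M) ∈ _
    rw [hfin2]
    refine Submodule.add_mem _ (Submodule.sum_mem _ fun s _ => ?_)
      (Submodule.sum_mem _ fun s _ => ?_)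
    · exact Submodule.smul_mem _ _ (Submodule.subset_span ⟨_, rfl⟩)
    · exact Submodule.smul_mem _ _ (Submodule.subset_span ⟨_, rfl⟩)
  have hbas := Basis.mk hv hspan
  rw [Module.finrank_eq_card_basis hbas, Fintype.card_sum, Fintype.card_fin, Fintype.card_fin]

end

/-- T2. One step of a prime filtration: dimensions and bases. -/
theorem ext_step {K : Type} [Field K] {q : ℕ} {I P : Ideal (MvPolynomial (Fin q) K)} (hI : HG I)
    {m : MvPolynomial (Fin q) K} {t : ℕ} (hm : m.IsHomogeneous t) (hP : ∀ a, a ∈ P ↔ m * a ∈ I)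
    {M : ℕ} (ht : t ≤ M) :
    finrank K (VM I M) = finrank K (VM (I ⊔ Ideal.span {m}) M) + finrank K (VM P (M - t)) ∧
    ∀ τ τ' : Fin q → ℕ, HasB (I ⊔ Ideal.span {m}) M τ' → HasB P (M - t) τ →
      HasB I M (fun j => τ' j + τ j) := by
  have hfr := finrank_eq hI hm hP ht
  refine ⟨hfr, ?_⟩
  rintro τ τ' ⟨κ', fκ', α', e', g', h1', h2', h3', h4'⟩ ⟨κ, fκ, α, e, g, h1, h2, h3, h4⟩
  refine ⟨κ' ⊕ κ, inferInstance, Sum.elim α' α, Sum.elim e' (fun s => t + e s),
    Sum.elim g' (fun s => m * g s), ?_, ?_, ?_, ?_⟩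
  · rintro (s | s)
    · exact h1' s
    · refine ⟨hm.mul (h1 s).1, ?_⟩
      have h5 := (h1 s).2
      simp only [Sum.elim_inr]
      omega
  · have h5 := indep hP h2' h2
    have h6 : (fun s : κ' ⊕ κ => Ideal.Quotient.mkₐ K I
        (Sum.elim (fun s => (∏ j, X j ^ α' s j) * g' s)
          (fun s => m * ((∏ j, X j ^ α s j) * g s)) s)) =
        fun s => Ideal.Quotient.mkₐ K I ((∏ j, X j ^ (Sum.elim α' α s j : ℕ)) *
          Sum.elim g' (fun s => m * g s) s) := by
      funext s
      rcases s with s | s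
      · rfl
      · simp only [Sum.elim_inr]
        rw [mul_left_comm]
    rw [h6] at h5
    exact h5
  · rw [Fintype.card_sum, h3', h3, hfr]
  · intro j
    rw [Fintype.sum_sum_type]
    simp only [Sum.elim_inl, Sum.elim_inr]
    rw [h4', h4]

/-- T2'. The same for a variable, where the exponents of the variable increase. -/
theorem ext_step_X {K : Type} [Field K] {q : ℕ} {I P : Ideal (MvPolynomial (Fin q) K)} (hI : HG I)
    (i : Fin q) (hP : ∀ a, a ∈ P ↔ X i * a ∈ I) {M : ℕ} (ht : 1 ≤ M) (τ τ' : Fin q → ℕ)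
    (h1 : HasB (I ⊔ Ideal.span {X i}) M τ') (h2 : HasB P (M - 1) τ) :
    HasB I M (fun j => τ' j + τ j + if j = i then finrank K (VM P (M - 1)) else 0) := by
  have hfr := finrank_eq hI (isHomogeneous_X K i) hP ht
  obtain ⟨κ', fκ', α', e', g', h1', h2', h3', h4'⟩ := h1
  obtain ⟨κ, fκ, α, e, g, h1, h2, h3, h4⟩ := h2
  refine ⟨κ' ⊕ κ, inferInstance, Sum.elim α' (fun s j => α s j + if j = i then 1 else 0),
    Sum.elim e' e, Sum.elim g' g, ?_, ?_, ?_, ?_⟩
  · rintro (s | s)
    · exact h1' s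
    · refine ⟨(h1 s).1, ?_⟩
      have h5 := (h1 s).2
      simp only [Sum.elim_inr, Finset.sum_add_distrib, Finset.sum_ite_eq', Finset.mem_univ, if_true]
      omega
  · have h5 := indep hP h2' h2
    have h6 : (fun s : κ' ⊕ κ => Ideal.Quotient.mkₐ K I
        (Sum.elim (fun s => (∏ j, X j ^ α' s j) * g' s)
          (fun s => X i * ((∏ j, X j ^ α s j) * g s)) s)) =
        fun s => Ideal.Quotient.mkₐ K I ((∏ j, X j ^ (Sum.elim α'
          (fun s j => α s j + if j = i then 1 else 0) s j : ℕ)) * Sum.elim g' g s) := by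
      funext s
      rcases s with s | s
      · rfl
      · simp only [Sum.elim_inr, pow_add, Finset.prod_mul_distrib]
        congr 1
        have h7 : ∏ j, (X j : MvPolynomial (Fin q) K) ^ (if j = i then 1 else 0) = X i := by
          rw [Finset.prod_eq_single i]
          · simp
          · intro j _ hj
            simp [hj]
          · intro hi
            exact absurd (Finset.mem_univ i) hi
        rw [h7]
        ring
    rw [h6] at h5
    exact h5
  · rw [Fintype.card_sum, h3', h3, hfr]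
  · intro j
    rw [Fintype.sum_sum_type]
    simp only [Sum.elim_inl, Sum.elim_inr, Finset.sum_add_distrib]
    rw [h4', h4, Finset.sum_const, Finset.card_univ, h3, add_assoc]
    split_ifs
    · simp
    · simp

end Pool.Agent.H190.TW.TwoT2
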