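import Pool.Agent.H426.Two.Ext
import Pool.Agent.H426.Two.PCol

/-!
Prime filtrations and bases.
-/

set_option autoImplicit false

namespace Pool.Agent.H426.Two

open MvPolynomial Finset Module
open Pool.Agent.TH875 (VM VM_finite exists_sec)
open Pool.Agent.H426.Ru (HG lt_add)
open Pool.Agent.H190.TW.TwoT2 (ext_step ext_step_X)
open Pool.Agent.H726.Two (exists_prime_colon)

variable {K : Type} [Field K] {q : ℕ}

lemma HasB.zero (I : Ideal (MvPolynomial (Fin q) K)) (M : ℕ) : HasB I M (fun _ => 0) := by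
  classical
  have hfin : FiniteDimensional K (VM I M) := VM_finite I M
  obtain ⟨sec, hsec⟩ := exists_sec I M
  set b := Module.finBasis K (VM I M) with hb
  refine ⟨Fin (finrank K (VM I M)), inferInstance, fun _ _ => 0, fun _ => M, fun s => sec (b s),
    ?_, ?_, ?_, ?_⟩
  · intro s
    exact ⟨(hsec _).1, by simp⟩
  · have h1 : (fun s => Ideal.Quotient.mkₐ K I ((∏ j : Fin q, X j ^ (0 : ℕ)) * sec (b s))) =
        (VM I M).subtype ∘ b := by
      funext s
      simp only [pow_zero, Finset.prod_const_one, one_mul, Function.comp_apply]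
      exact (hsec _).2
    rw [h1]
    exact b.linearIndependent.map' _ (Submodule.ker_subtype _)
  · simp
  · intro j
    simp

lemma HasB.le {I : Ideal (MvPolynomial (Fin q) K)} {M : ℕ} {τ : Fin q → ℕ} (h : HasB I M τ)
    (j : Fin q) : τ j ≤ M * finrank K (VM I M) := by
  obtain ⟨κ, hκ, α, e, g, h1, -, h3, h4⟩ := h
  rw [← h4 j, ← h3]
  refine (Finset.sum_le_card_nsmul _ _ M fun s _ => ?_).trans ?_
  · have := (h1 s).2
    have h5 : α s j ≤ ∑ j, α s j := Finset.single_le_sum (f := α s) (fun _ _ => Nat.zero_le _)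
      (Finset.mem_univ j)
    omega
  · rw [smul_eq_mul, Finset.card_univ, mul_comm]

lemma HasB.finite (I : Ideal (MvPolynomial (Fin q) K)) (M : ℕ) : {τ | HasB I M τ}.Finite := by
  refine Set.Finite.subset (Set.finite_Iic (fun _ : Fin q => M * finrank K (VM I M))) ?_
  intro τ hτ j
  exact HasB.le hτ j

/-- a best basis for the weight `a` -/
lemma exists_best (I : Ideal (MvPolynomial (Fin q) K)) (M : ℕ) (a : Fin q → ℝ) :
    ∃ τ, HasB I M τ ∧ ∀ τ', HasB I M τ' → ∑ j, (τ' j : ℝ) * a j ≤ ∑ j, (τ j : ℝ) * a j := by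
  obtain ⟨τ, hτ, h⟩ := Set.exists_max_image {τ | HasB I M τ} (fun τ => ∑ j, (τ j : ℝ) * a j)
    (HasB.finite I M) ⟨_, HasB.zero I M⟩
  exact ⟨τ, hτ, h⟩

lemma one_le_finrank {Q : Ideal (MvPolynomial (Fin q) K)} (hp : Q.IsPrime) {k : Fin q}
    (hk : X k ∉ Q) (M : ℕ) : 1 ≤ finrank K (VM Q M) := by
  have hfin : FiniteDimensional K (VM Q M) := VM_finite Q M
  rw [Nat.one_le_iff_ne_zero, Ne, Submodule.finrank_eq_zero]
  intro h
  have h1 : Ideal.Quotient.mkₐ K Q ((X k) ^ M) ∈ VM Q M :=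
    ⟨_, isHomogeneous_X_pow k M, rfl⟩
  rw [h, Submodule.mem_bot] at h1
  exact hk (hp.mem_of_pow_mem _ (Ideal.Quotient.eq_zero_iff_mem.1 h1))

lemma finrank_irrel {Q : Ideal (MvPolynomial (Fin q) K)} (hk : ∀ k, X k ∈ Q) {M : ℕ} (hM : 1 ≤ M) :
    finrank K (VM Q M) = 0 := by
  have hfin : FiniteDimensional K (VM Q M) := VM_finite Q M
  rw [Submodule.finrank_eq_zero]
  rw [eq_bot_iff]
  rintro _ ⟨p, hp, rfl⟩
  rw [Submodule.mem_bot]
  refine Ideal.Quotient.eq_zero_iff_mem.2 ?_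
  have hp' : p.IsHomogeneous M := hp
  rw [p.as_sum]
  refine Ideal.sum_mem _ fun β hβ => ?_
  have hdeg := hp' (mem_support_iff.1 hβ)
  have hne : ∃ k, β k ≠ 0 := by
    by_contra hcon
    push Not at hcon
    have h0 : β = 0 := Finsupp.ext hcon
    rw [h0, map_zero] at hdeg
    omega
  obtain ⟨k, hk'⟩ := hne
  have h1 : monomial β (p.coeff β) = monomial (β - Finsupp.single k 1) (p.coeff β) * X k := by
    rw [X, monomial_mul, mul_one]
    congr 1
    rw [tsub_add_cancel_of_le]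
    rw [Finsupp.single_le_iff]
    omega
  rw [h1]
  exact Ideal.mul_mem_left _ _ (hk k)

/-- prime filtrations -/
theorem exists_filt (I : Ideal (MvPolynomial (Fin q) K)) (hI : HG I) :
    ∃ (L : ℕ) (P : Fin L → Ideal (MvPolynomial (Fin q) K)) (t : Fin L → ℕ),
      (∀ l, (P l).IsPrime ∧ HG (P l) ∧ I ≤ P l) ∧ ∀ M, (∀ l, t l ≤ M) →
        finrank K (VM I M) = ∑ l, finrank K (VM (P l) (M - t l)) ∧
        ∀ τ : Fin L → Fin q → ℕ, (∀ l, HasB (P l) (M - t l) (τ l)) →
          HasB I M (fun j => ∑ l, τ l j) := by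
  induction I using WellFoundedGT.induction with
  | ind I ih =>
    by_cases ht : I = ⊤
    · subst ht
      refine ⟨0, Fin.elim0, Fin.elim0, fun l => l.elim0, fun M _ => ⟨?_, fun τ _ => ?_⟩⟩
      · have hfin : FiniteDimensional K (VM (⊤ : Ideal (MvPolynomial (Fin q) K)) M) := VM_finite _ M
        rw [Finset.univ_eq_empty, Finset.sum_empty, Submodule.finrank_eq_zero, eq_bot_iff]
        rintro _ ⟨p, -, rfl⟩
        exact Ideal.Quotient.eq_zero_iff_mem.2 trivial
      · simpa using HasB.zero (⊤ : Ideal (MvPolynomial (Fin q) K)) M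
    · obtain ⟨m, t0, P0, hm, hmI, hP0, hP0g, hP0m⟩ := exists_prime_colon hI ht
      obtain ⟨L, P, t, h1, h2⟩ := ih _ (lt_add hmI) (hI.add hm)
      refine ⟨L + 1, Fin.cons P0 P, Fin.cons t0 t, ?_, ?_⟩
      · intro l
        refine Fin.cases ?_ (fun l => ?_) l
        · simp only [Fin.cons_zero]
          refine ⟨hP0, hP0g, fun a ha => (hP0m a).2 (Ideal.mul_mem_left _ _ ha)⟩
        · simp only [Fin.cons_succ]
          exact ⟨(h1 l).1, (h1 l).2.1, le_sup_left.trans (h1 l).2.2⟩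
      · intro M hM
        have hM0 : t0 ≤ M := by simpa using hM 0
        have hM1 : ∀ l, t l ≤ M := fun l => by simpa using hM l.succ
        obtain ⟨h3, h4⟩ := h2 M hM1
        obtain ⟨h5, h6⟩ := ext_step hI hm hP0m hM0
        refine ⟨?_, fun τ hτ => ?_⟩
        · rw [Fin.sum_univ_succ, h5, h3, add_comm]
          rfl
        · have h7 := h4 (fun l => τ l.succ) (fun l => by simpa using hτ l.succ)
          have h8 := h6 (τ 0) _ h7 (by simpa using hτ 0)
          simp only [Fin.sum_univ_succ]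
          have e : (fun j => ∑ l : Fin L, τ l.succ j + τ 0 j) =
              (fun j => τ 0 j + ∑ i : Fin L, τ i.succ j) := by
            funext j
            rw [add_comm]
          rw [← e]
          exact h8

/-- the filtration for a prime and a variable -/
theorem prime_step {Q : Ideal (MvPolynomial (Fin q) K)} (hQ : HG Q) (hp : Q.IsPrime) {i : Fin q}
    (hi : X i ∉ Q) :
    ∃ (L : ℕ) (P : Fin L → Ideal (MvPolynomial (Fin q) K)) (t : Fin L → ℕ),
      (∀ l, (P l).IsPrime ∧ HG (P l) ∧ Q < P l) ∧ ∀ M, 1 ≤ M → (∀ l, t l ≤ M) →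
        finrank K (VM Q M) = finrank K (VM Q (M - 1)) + ∑ l, finrank K (VM (P l) (M - t l)) ∧
        ∀ (τ0 : Fin q → ℕ) (τ : Fin L → Fin q → ℕ), HasB Q (M - 1) τ0 →
          (∀ l, HasB (P l) (M - t l) (τ l)) →
          HasB Q M (fun j => ∑ l, τ l j + τ0 j +
            if j = i then finrank K (VM Q (M - 1)) else 0) := by
  have hX : (X i : MvPolynomial (Fin q) K).IsHomogeneous 1 := isHomogeneous_X K i
  obtain ⟨L, P, t, h1, h2⟩ := exists_filt (Q ⊔ Ideal.span {X i}) (hQ.add hX)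
  have hP : ∀ a, a ∈ Q ↔ X i * a ∈ Q := fun a => by
    constructor
    · exact fun h => Ideal.mul_mem_left _ _ h
    · intro h
      rcases hp.mem_or_mem h with h | h
      · exact absurd h hi
      · exact h
  refine ⟨L, P, t, fun l => ⟨(h1 l).1, (h1 l).2.1, (lt_add hi).trans_le (h1 l).2.2⟩, ?_⟩
  intro M hM hMt
  obtain ⟨h3, h4⟩ := h2 M hMt
  obtain ⟨h5, -⟩ := ext_step hQ hX hP hM
  refine ⟨?_, fun τ0 τ hτ0 hτ => ?_⟩
  · rw [h5, h3, add_comm]
  · exact ext_step_X hQ i hP hM τ0 _ (h4 τ hτ) hτ0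

end Pool.Agent.H426.Two
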