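import Pool.Agent.H426.Two.Claim
import Pool.Agent.H426.Ru.Fam3

/-!
The inequality for the coordinate hyperplanes and rational points.
-/

set_option autoImplicit false

namespace Pool.Agent.H426.Two

open MvPolynomial Finset Module NumberField IsDedekindDomain Height
open Pool.Agent.W180.OP Pool.Agent.W180.TP Pool.Agent.NH28
open Pool.Agent.TH875 (VM VM_finite not_all form_ub)
open Pool.Agent.H426.Ru (HG noeth main_f cone)

variable {K : Type} [Field K] [NumberField K] {q : ℕ}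

/-- the local height of the `j`-th coordinate hyperplane -/
noncomputable def lc (v : Pl K) (y : Fin q → K) (j : Fin q) : ℝ :=
  wt v * (Real.log (nrm (av v) y) - Real.log (av v (y j)))

lemma lc_nonneg (v : Pl K) {y : Fin q → K} (j : Fin q) (hy : y j ≠ 0) : 0 ≤ lc v y j := by
  refine mul_nonneg (wt_nonneg v) ?_
  have h1 := Real.log_le_log ((av v).pos_iff.2 hy) (le_nrm (av v) y j)
  linarith

lemma lc_eq (v : Pl K) {y : Fin q → K} (j : Fin q) (hy : y j ≠ 0) :
    lc v y j = wt v * lam (av v) 1 (bc K (X j : MvPolynomial (Fin q) K)) y := by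
  have hy0 : y ≠ 0 := fun h => hy (by rw [h]; rfl)
  have h1 : eval y (bc K (X j : MvPolynomial (Fin q) K)) = y j := by
    rw [eval_bc, aeval_X]
  rw [lam_eq (av v) 1 _ hy0 (by rw [h1]; exact hy), h1]
  simp [lc]

lemma ov_self (v : Pl K) : Ov v v := by
  cases v with
  | inl v =>
    show v.comap (algebraMap K K) = v
    ext x
    rfl
  | inr v =>
    exact ⟨by
      ext x
      exact Iff.rfl⟩

lemma nn_self (v : Pl K) : nn v v = 1 := by
  have h1 := sum_nn K v
  rw [Module.finrank_self] at h1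
  have h2 : ∀ w ∈ ab K v, w = v := by
    intro w hw
    have h3 : (ab K v).card ≤ 1 := by
      have := card_ab_le K v
      rwa [Module.finrank_self] at this
    rw [Finset.card_le_one] at h3
    exact h3 w hw v (mem_ab.2 (ov_self v))
  have h3 : ab K v = {v} := by
    ext w
    rw [Finset.mem_singleton]
    exact ⟨h2 w, fun h => by rw [h]; exact mem_ab.2 (ov_self v)⟩
  rw [h3, Finset.sum_singleton] at h1
  exact_mod_cast h1

/-- the sum of the local heights of a coordinate -/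
lemma sum_lc_le (j : Fin q) : ∃ C : ℝ, 0 ≤ C ∧ ∀ (S : Finset (Pl K)) (y : Fin q → K), y j ≠ 0 →
    ∑ v ∈ S, lc v y j ≤ logHeight y + C := by
  obtain ⟨C, hC0, hC⟩ := liou_u (X j : MvPolynomial (Fin q) K) 1 (isHomogeneous_X K j)
  refine ⟨C * finrank ℚ K, by positivity, fun S y hy => ?_⟩
  have hy0 : y ≠ 0 := fun h => hy (by rw [h]; rfl)
  have h1 := hC K S y hy0 (by rw [aeval_X]; exact hy)
  rw [Nat.cast_one, one_mul] at h1
  refine le_trans (Finset.sum_le_sum fun v _ => ?_) h1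
  rw [lc_eq v j hy]
  exact mul_le_mul_of_nonneg_left (le_max_right _ _) (wt_nonneg v)

/-- the subspace theorem for the bases of the graded pieces -/
theorem basis_ineq {P : Ideal (MvPolynomial (Fin q) K)} (hP : HG P) (hp : P.IsPrime)
    (hX : ∀ j, X j ∉ P) (k0 : Fin q) :
    ∃ C1 : ℝ, 0 ≤ C1 ∧ ∀ M : ℕ, ∃ Z : MvPolynomial (Fin q) K, Z ∉ P ∧ (∃ t, Z.IsHomogeneous t) ∧
      ∀ S : Finset (Pl K), ∃ C : ℝ, 0 ≤ C ∧ ∀ y : Fin q → K, (∀ j, y j ≠ 0) →
        (∀ p ∈ P, aeval y p = 0) → aeval y Z ≠ 0 → ∀ τ : Pl K → Fin q → ℕ,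
        (∀ v, HasB P M (τ v)) → ∑ v ∈ S, ∑ j, (τ v j : ℝ) * lc v y j ≤
          finrank K (VM P M) * ((M + C1 + 1) * logHeight y + C) := by
  classical
  obtain ⟨m, G, g, hG, rfl⟩ := hP
  obtain ⟨C1, hC1⟩ := exists_theta K q 1
  have hC10 := hC1.1
  refine ⟨C1, hC10, fun M => ?_⟩
  set P : Ideal (MvPolynomial (Fin q) K) := Ideal.span (Set.range G) with hPd
  -- the set of types of bases
  have hfinite := HasB.finite P M
  let _ : Fintype {τ | HasB P M τ} := hfinite.fintype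
  choose κ hκ α e gg h1 h2 h3 h4 using fun τ : {τ | HasB P M τ} => τ.2
  have hgP : ∀ τ s, gg τ s ∉ P := by
    intro τ s h
    refine (h2 τ).ne_zero s (Ideal.Quotient.eq_zero_iff_mem.2 ?_)
    exact Ideal.mul_mem_left _ _ h
  have hPh : ∀ τ s, ((∏ j, X j ^ α τ s j) * gg τ s : MvPolynomial (Fin q) K).IsHomogeneous M := by
    intro τ s
    have h5 : (∏ j, X j ^ α τ s j : MvPolynomial (Fin q) K).IsHomogeneous (∑ j, α τ s j) := by
      have := IsHomogeneous.prod Finset.univ (fun j => (X j : MvPolynomial (Fin q) K) ^ α τ s j)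
        (fun j => α τ s j) fun j _ => isHomogeneous_X_pow j _
      exact this
    have h6 := h5.mul (h1 τ s).1
    rwa [(h1 τ s).2] at h6
  -- constants
  choose Cf hCf0 hCf using fun (t : Σ τ, κ τ) => form_ub (gg t.1 t.2) (h1 t.1 t.2).1
  have hCfs : 0 ≤ ∑ t, Cf t := Finset.sum_nonneg fun t _ => hCf0 t
  choose Cl hCl0 hCl using fun j : Fin q => sum_lc_le (K := K) j
  have hCls : 0 ≤ ∑ j, Cl j := Finset.sum_nonneg fun t _ => hCl0 t
  set c0 : ℝ := (∑ t, Cf t) * finrank ℚ K with hc0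
  have hc00 : 0 ≤ c0 := by positivity
  have hH1 : 1 ≤ finrank K (VM P M) := one_le_finrank hp (hX k0) M
  obtain ⟨Z, hZ, ⟨t, hZt⟩, hmain⟩ := main_f (r := 1) le_rfl G hp
    (fun τ s => (∏ j, X j ^ α τ s j) * gg τ s) hPh h2 hH1 h3 C1 hC1 c0 hc00
  refine ⟨Z * ∏ τ, ∏ s, gg τ s, ?_, ⟨_, hZt.mul (IsHomogeneous.prod _ _ _ fun τ _ =>
    IsHomogeneous.prod _ _ _ fun s _ => (h1 τ s).1)⟩, ?_⟩
  · intro h
    rcases hp.mem_or_mem h with h | h
    · exact hZ h
    · rw [hp.prod_mem_iff] at h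
      obtain ⟨τ, _, h⟩ := h
      rw [hp.prod_mem_iff] at h
      obtain ⟨s, _, h⟩ := h
      exact hgP τ s h
  intro S
  obtain ⟨C, hC0, hC⟩ := hmain S (M * (1 + ∑ j, Cl j)) (by positivity)
  refine ⟨C, hC0, fun y hy hyP hyZ τ hτ => ?_⟩
  have hy0 : y ≠ 0 := fun h => hy k0 (by rw [h]; rfl)
  rw [map_mul] at hyZ
  have hgy : ∀ τ s, aeval y (gg τ s) ≠ 0 := by
    have h5 := right_ne_zero_of_mul hyZ
    rw [map_prod, Finset.prod_ne_zero_iff] at h5
    intro τ s
    have h6 := h5 τ (Finset.mem_univ _)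
    rw [map_prod, Finset.prod_ne_zero_iff] at h6
    exact h6 s (Finset.mem_univ _)
  have hh := logHeight_nonneg y
  set h : ℝ := logHeight y with hhd
  have hlc0 : ∀ v j, 0 ≤ lc v y j := fun v j => lc_nonneg v j (hy j)
  have hlcle : ∀ v j, lc v y j ≤ (1 + ∑ j, Cl j) * (h + 1) := by
    intro v j
    have h5 := hCl j {v} y (hy j)
    rw [Finset.sum_singleton] at h5
    have h6 : Cl j ≤ ∑ j, Cl j :=
      Finset.single_le_sum (f := Cl) (fun t _ => hCl0 t) (Finset.mem_univ _)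
    nlinarith
  have hadj : IntermediateField.adjoin K {z | ∃ i j, z = y i / y j} = ⊤ := by
    rw [eq_top_iff]
    intro z _
    exact IntermediateField.algebraMap_mem _ z
  have hl1 : ∀ (v : Pl K) (τ : {τ | HasB P M τ}) (s : κ τ),
      ∑ j, (α τ s j : ℝ) * lc v y j ≤ M * (1 + ∑ j, Cl j) * (h + 1) := by
    intro v τ s
    have h5 : ∑ j, (α τ s j : ℝ) * lc v y j ≤ ∑ j, (α τ s j : ℝ) * ((1 + ∑ j, Cl j) * (h + 1)) :=
      Finset.sum_le_sum fun j _ => mul_le_mul_of_nonneg_left (hlcle v j) (Nat.cast_nonneg _)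
    refine h5.trans ?_
    rw [← Finset.sum_mul, mul_assoc]
    refine mul_le_mul_of_nonneg_right ?_ (by positivity)
    have h6 : ∑ j, α τ s j ≤ M := by
      have := (h1 τ s).2
      omega
    exact_mod_cast h6
  have hkey : ∀ (v : Pl K) (τv : {τ | HasB P M τ}) (s : κ τv), ∑ j, (α τv s j : ℝ) * lc v y j ≤
      wt v * lam (av v) M (bc K ((∏ j, X j ^ α τv s j) * gg τv s)) y + c0 := by
    intro v τv s
    have h5 : eval y (bc K (gg τv s)) = aeval y (gg τv s) := eval_bc _ _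
    have h6 : eval y (bc K ((∏ j, X j ^ α τv s j) * gg τv s)) =
        (∏ j, y j ^ α τv s j) * aeval y (gg τv s) := by
      rw [eval_bc, map_mul, map_prod]
      simp
    have h7 : (∏ j, y j ^ α τv s j) ≠ 0 := Finset.prod_ne_zero_iff.2 fun j _ =>
      pow_ne_zero _ (hy j)
    have h8 := hCf ⟨τv, s⟩ K v y hy0 (hgy τv s)
    rw [lam_eq (av v) _ _ hy0 (by rw [h5]; exact hgy τv s), h5] at h8
    rw [lam_eq (av v) M _ hy0 (by rw [h6]; exact mul_ne_zero h7 (hgy τv s)), h6, map_mul,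
      map_prod, Real.log_mul ((Finset.prod_ne_zero_iff.2 fun j _ => by
        rw [map_pow]; exact pow_ne_zero _ ((av v).ne_zero_iff.2 (hy j))))
        ((av v).ne_zero_iff.2 (hgy τv s)), Real.log_prod (fun j _ => by
        rw [map_pow]; exact pow_ne_zero _ ((av v).ne_zero_iff.2 (hy j)))]
    have h9 : ∑ j, Real.log ((av v) (y j) ^ α τv s j) =
        ∑ j, (α τv s j : ℝ) * Real.log (av v (y j)) := by
      refine Finset.sum_congr rfl fun j _ => ?_
      rw [Real.log_pow]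
    have h9' : ∑ j, Real.log ((av v) (y j ^ α τv s j)) =
        ∑ j, (α τv s j : ℝ) * Real.log (av v (y j)) := by
      rw [← h9]
      refine Finset.sum_congr rfl fun j _ => ?_
      rw [map_pow]
    rw [h9']
    have h10 : Cf ⟨τv, s⟩ * finrank ℚ K ≤ c0 := by
      rw [hc0]
      refine mul_le_mul_of_nonneg_right ?_ (Nat.cast_nonneg _)
      exact Finset.single_le_sum (f := Cf) (fun t _ => hCf0 t) (Finset.mem_univ _)
    have h11 : ∑ j, (α τv s j : ℝ) * lc v y j = wt v * ((∑ j, (α τv s j : ℝ)) *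
        Real.log (nrm (av v) y) - ∑ j, (α τv s j : ℝ) * Real.log (av v (y j))) := by
      rw [Finset.sum_mul, ← Finset.sum_sub_distrib, Finset.mul_sum]
      refine Finset.sum_congr rfl fun j _ => ?_
      unfold lc
      ring
    have h12 : (M : ℝ) = ∑ j, (α τv s j : ℝ) + e τv s := by
      have := (h1 τv s).2
      exact_mod_cast this.symm
    rw [h11, h12]
    have h13 : -(wt v * (e τv s * Real.log (nrm (av v) y) - Real.log (av v (aeval y (gg τv s))))) ≤
      Cf ⟨τv, s⟩ * finrank ℚ K := h8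
    linarith
  have hcall := hC K (by rw [Module.finrank_self]) y hy0
    (fun k => hyP _ (Ideal.subset_span ⟨k, rfl⟩)) hadj (left_ne_zero_of_mul hyZ)
    (fun v => ⟨τ v, hτ v⟩) S id (fun v hv => ⟨hv, ov_self v⟩)
    (fun v s => ∑ j, (α ⟨τ v, hτ v⟩ s j : ℝ) * lc v y j) (by
      intro v _ s
      refine ⟨Finset.sum_nonneg fun j _ => mul_nonneg (Nat.cast_nonneg _) (hlc0 v j), ?_⟩
      rw [id, nn_self, one_mul]
      exact hkey v _ s)
    (fun _ => M * (1 + ∑ j, Cl j) * (h + 1)) (fun v _ => ⟨by positivity, le_rfl⟩)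
  have hH0 : (0 : ℝ) < finrank K (VM P M) := by exact_mod_cast hH1
  have hterm : ∀ v ∈ S, nn (id v) v * (M * (1 + ∑ j, Cl j) * (h + 1)) - finrank K K /
      (finrank K (VM P M) : ℝ) * ∑ s, max (M * (1 + ∑ j, Cl j) * (h + 1) -
        ∑ j, (α ⟨τ v, hτ v⟩ s j : ℝ) * lc v y j) 0 =
      (∑ j, (τ v j : ℝ) * lc v y j) / finrank K (VM P M) := by
    intro v _
    rw [id, nn_self, Module.finrank_self]
    have h5 : ∀ s : κ ⟨τ v, hτ v⟩, max (M * (1 + ∑ j, Cl j) * (h + 1) -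
        ∑ j, (α ⟨τ v, hτ v⟩ s j : ℝ) * lc v y j) 0 = M * (1 + ∑ j, Cl j) * (h + 1) -
        ∑ j, (α ⟨τ v, hτ v⟩ s j : ℝ) * lc v y j := fun s =>
      max_eq_left (by linarith [hl1 v ⟨τ v, hτ v⟩ s])
    rw [Finset.sum_congr rfl fun s _ => h5 s, Finset.sum_sub_distrib, Finset.sum_const,
      Finset.card_univ, h3, nsmul_eq_mul]
    have h6 : ∑ s : κ ⟨τ v, hτ v⟩, ∑ j, (α ⟨τ v, hτ v⟩ s j : ℝ) * lc v y j =
        ∑ j, (τ v j : ℝ) * lc v y j := by
      rw [Finset.sum_comm]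
      refine Finset.sum_congr rfl fun j _ => ?_
      rw [← Finset.sum_mul]
      congr 1
      exact_mod_cast h4 ⟨τ v, hτ v⟩ j
    rw [h6]
    push_cast
    field_simp
    ring
  rw [Finset.sum_congr rfl hterm, ← Finset.sum_div, div_le_iff₀ hH0] at hcall
  linarith

end Pool.Agent.H426.Two
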