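import Pool.Graph.R_pool_sql_team_seeded_3dad9d7b.NH28.Mono

/-!
T7a. The height of the vector of norms of the values of forms.
-/

set_option autoImplicit false

namespace Pool.Agent.H249.Two7a

open MvPolynomial Finset Module NumberField IsDedekindDomain Height
open Pool.Agent.W180.OP (Pl av wt fv nrm wt_nonneg nrm_pos nrm_nonneg exists_nrm lam_eq eval_bc bc
  lam)
open Pool.Agent.NH28 (Ov nn ab mem_ab card_ab_le exists_below fab mem_fab sum_split height_sum
  nrm_support int_val exists_bad)
open Pool.Agent.TH875 (form_ub)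

/-- the height as a sum over a large set of places -/
lemma height_eq_sum {K : Type} [Field K] [NumberField K] {N : ℕ} {z : Fin N → K} (hz : z ≠ 0)
    (S : Finset (Pl K)) (hS : ∀ v : InfinitePlace K, Sum.inl v ∈ S)
    (h : ∀ v : HeightOneSpectrum (𝓞 K), nrm (fv v) z ≠ 1 → Sum.inr v ∈ S) :
    logHeight z = ∑ v ∈ S, wt v * Real.log (nrm (av v) z) := by
  classical
  rw [height_sum hz S.toRight (fun v hv => by rw [Finset.mem_toRight]; exact h v hv)]
  have e1 : ∑ v ∈ S, wt v * Real.log (nrm (av v) z) =
      ∑ v ∈ S.toLeft, (v.mult : ℝ) * Real.log (nrm v.1 z) +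
        ∑ v ∈ S.toRight, Real.log (nrm (fv v) z) := by
    conv_lhs => rw [← Finset.toLeft_disjSum_toRight (u := S), Finset.sum_disjSum]
    congr 1
    exact Finset.sum_congr rfl fun v _ => one_mul _
  have e2 : S.toLeft = Finset.univ := by
    ext v
    simp [hS]
  rw [e1, e2]

/-- the height as a sum over the places above a large set of places -/
lemma height_eq_sum' {K L : Type} [Field K] [NumberField K] [Field L] [NumberField L] [Algebra K L]
    {N : ℕ} {z : Fin N → L} (hz : z ≠ 0)
    (S : Finset (Pl K)) (hS : ∀ v : InfinitePlace K, Sum.inl v ∈ S)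
    (h : ∀ w : HeightOneSpectrum (𝓞 L), nrm (fv w) z ≠ 1 → ∃ v ∈ S, Ov v (Sum.inr w : Pl L)) :
    logHeight z = ∑ v ∈ S, ∑ w ∈ ab L v, wt w * Real.log (nrm (av w) z) := by
  classical
  rw [height_sum hz (fab L S) (fun w hw => mem_fab.2 (h w hw)), sum_split S hS]
  congr 1
  exact Finset.sum_congr rfl fun w _ => (one_mul _).symm

/-- T7a. The height of the vector of norms. -/
theorem height_norm_le
    (h5 : ∀ (K L : Type) [Field K] [NumberField K] [Field L] [NumberField L] [Algebra K L]
      (v : Pl K) (z : L), z ≠ 0 →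
      ∑ w ∈ ab L v, wt w * Real.log (av w z) = wt v * Real.log (av v (Algebra.norm K z)))
    {K : Type} [Field K] [NumberField K] {n q e : ℕ}
    (F : Fin q → MvPolynomial (Fin n) K) (hF : ∀ i, (F i).IsHomogeneous e) (r : ℕ) :
    ∃ C : ℝ, 0 ≤ C ∧ ∀ (L : Type) [Field L] [NumberField L] [Algebra K L], finrank K L ≤ r →
      ∀ x : Fin n → L, x ≠ 0 → (∀ j, aeval x (F j) ≠ 0) →
      logHeight (fun j => Algebra.norm K (aeval x (F j))) ≤ e * logHeight x + C := by
  classical
  choose C hC0 hC using fun j => form_ub (F j) (hF j)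
  choose T hT using fun j => exists_bad (F j)
  obtain ⟨B, hB⟩ : ∃ B : Finset (Pl K), B = (Finset.univ : Finset (InfinitePlace K)).disjSum
    (Finset.univ.biUnion T) := ⟨_, rfl⟩
  have hBinf : ∀ v : InfinitePlace K, Sum.inl v ∈ B := by
    intro v
    rw [hB, Finset.inl_mem_disjSum]
    exact Finset.mem_univ v
  have hBfin : ∀ (v : HeightOneSpectrum (𝓞 K)) (j : Fin q), Sum.inr v ∉ B → v ∉ T j := by
    intro v j hv hj
    apply hv
    rw [hB, Finset.inr_mem_disjSum]
    exact Finset.mem_biUnion.2 ⟨j, Finset.mem_univ j, hj⟩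
  set D : ℝ := ∑ j, C j with hD
  have hD0 : 0 ≤ D := Finset.sum_nonneg fun j _ => hC0 j
  have hCD : ∀ j, C j ≤ D := fun j =>
    Finset.single_le_sum (f := C) (fun j _ => hC0 j) (Finset.mem_univ j)
  set Q : ℝ := r * (D * (finrank ℚ K * r)) with hQ
  have hQ0 : 0 ≤ Q := by positivity
  refine ⟨B.card * Q, by positivity, fun L _ _ _ hr x hx hFx => ?_⟩
  have hhx : 0 ≤ logHeight x := logHeight_nonneg x
  rcases Nat.eq_zero_or_pos q with hq | hq
  · subst hq
    rw [logHeight_eq_zero_of_subsingleton]
    positivity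
  obtain ⟨y, hyd⟩ : ∃ y : Fin q → K, y = fun j => Algebra.norm K (aeval x (F j)) := ⟨_, rfl⟩
  rw [← hyd]
  have hyne : ∀ j, y j ≠ 0 := by
    intro j
    rw [hyd]
    exact (Algebra.norm_ne_zero_iff).2 (hFx j)
  have hy : y ≠ 0 := by
    intro h
    exact hyne ⟨0, hq⟩ (by rw [h]; rfl)
  -- the set of places
  obtain ⟨S, hSdef⟩ : ∃ S : Finset (Pl K), S = (B ∪ (nrm_support hy).toFinset.image Sum.inr) ∪
    (nrm_support hx).toFinset.image (fun w => (exists_below K (Sum.inr w : Pl L)).choose) :=
    ⟨_, rfl⟩
  have hBS : B ⊆ S := by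
    rw [hSdef]
    exact Finset.subset_union_left.trans Finset.subset_union_left
  have hSinf : ∀ v : InfinitePlace K, Sum.inl v ∈ S := fun v => hBS (hBinf v)
  have e1 : logHeight y = ∑ v ∈ S, wt v * Real.log (nrm (av v) y) := by
    refine height_eq_sum hy S hSinf fun v hv => ?_
    rw [hSdef]
    refine Finset.mem_union_left _ (Finset.mem_union_right _ ?_)
    exact Finset.mem_image_of_mem _ ((Set.Finite.mem_toFinset _).2 hv)
  have e2 : logHeight x = ∑ v ∈ S, ∑ w ∈ ab L v, wt w * Real.log (nrm (av w) x) := by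
    refine height_eq_sum' hx S hSinf fun w hw => ?_
    refine ⟨(exists_below K (Sum.inr w : Pl L)).choose, ?_,
      (exists_below K (Sum.inr w : Pl L)).choose_spec⟩
    rw [hSdef]
    refine Finset.mem_union_right _ ?_
    exact Finset.mem_image_of_mem (fun w => (exists_below K (Sum.inr w : Pl L)).choose)
      ((Set.Finite.mem_toFinset _).2 hw)
  -- the estimate at one place
  have hloc : ∀ v ∈ S, wt v * Real.log (nrm (av v) y) ≤
      e * ∑ w ∈ ab L v, wt w * Real.log (nrm (av w) x) + (if v ∈ B then Q else 0) := by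
    intro v _
    obtain ⟨j, hj⟩ := exists_nrm (av v) hq y
    have h1 : wt v * Real.log (nrm (av v) y) =
        ∑ w ∈ ab L v, wt w * Real.log (av w (aeval x (F j))) := by
      rw [h5 K L v _ (hFx j), ← hj, hyd]
    rw [h1]
    by_cases hv : v ∈ B
    · rw [if_pos hv]
      have h2 : ∀ w ∈ ab L v, wt w * Real.log (av w (aeval x (F j))) ≤
          e * (wt w * Real.log (nrm (av w) x)) + D * (finrank ℚ K * r) := by
        intro w _
        have h3 := hC j L w x hx (hFx j)
        rw [lam_eq (av w) e (bc L (F j)) hx (by rw [eval_bc]; exact hFx j), eval_bc] at h3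
        have h4 : C j * (finrank ℚ L : ℝ) ≤ D * (finrank ℚ K * r) := by
          have h6 : (finrank ℚ L : ℝ) = finrank ℚ K * finrank K L := by
            rw [← Module.finrank_mul_finrank ℚ K L]
            push_cast
            ring
          have h7 : (finrank K L : ℝ) ≤ r := by exact_mod_cast hr
          have h8 : (0 : ℝ) ≤ finrank ℚ K := Nat.cast_nonneg _
          have h9 : (0 : ℝ) ≤ finrank K L := Nat.cast_nonneg _
          rw [h6]
          exact mul_le_mul (hCD j) (mul_le_mul_of_nonneg_left h7 h8) (by positivity) hD0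
        have h10 : -(wt w * ((e : ℝ) * Real.log (nrm (av w) x) -
            Real.log (av w (aeval x (F j))))) = wt w * Real.log (av w (aeval x (F j))) -
            e * (wt w * Real.log (nrm (av w) x)) := by ring
        rw [h10] at h3
        linarith
      refine (Finset.sum_le_sum h2).trans ?_
      rw [Finset.sum_add_distrib, ← Finset.mul_sum, Finset.sum_const, nsmul_eq_mul]
      have h3 : ((ab L v).card : ℝ) ≤ r := by
        have := (card_ab_le L v).trans hr
        exact_mod_cast this
      have h4 : (0 : ℝ) ≤ D * (finrank ℚ K * r) := by positivity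
      have h6 := mul_le_mul_of_nonneg_right h3 h4
      linarith
    · rw [if_neg hv, add_zero, Finset.mul_sum]
      refine Finset.sum_le_sum fun w hw => ?_
      have hov := mem_ab.1 hw
      cases v with
      | inl v => exact absurd (hBinf v) hv
      | inr v =>
        cases w with
        | inl w => exact hov.elim
        | inr w =>
          have h3 := int_val (F j) (hF j) v (hT j v (hBfin v j hv)) w hov x
          have h4 : 0 < fv w (aeval x (F j)) := (fv w).pos (hFx j)
          have h6 := Real.log_le_log h4 h3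
          rw [Real.log_pow] at h6
          show 1 * Real.log (fv w (aeval x (F j))) ≤ e * (1 * Real.log (nrm (fv w) x))
          rw [one_mul, one_mul]
          exact h6
  rw [e1, e2]
  refine (Finset.sum_le_sum hloc).trans (le_of_eq ?_)
  rw [Finset.sum_add_distrib, ← Finset.mul_sum, Finset.sum_ite_mem,
    Finset.inter_eq_right.2 hBS, Finset.sum_const, nsmul_eq_mul]

end Pool.Agent.H249.Two7a
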