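import Pool.Graph.R_pool_sql_team_seeded_3dad9d7b.NH28.Mono
import Pool.Graph.R_pool_sql_team_seeded_3dad9d7b.NH28.HtSum

/-!
# T6 (helper426): the places of Mathlib and the places `Pl`
-/

set_option autoImplicit false

namespace Pool.Agent.H658.Two

open Finset Module NumberField IsDedekindDomain Height
open Pool.Agent.W180.OP (Pl av wt fv nrm fv_apply)
open Pool.Agent.NH28 (Ov nn ab mem_ab ov_unique fv_ext ldeg ldeg_pos fab mem_fab height_sum
  nrm_support)

section pls

variable {k L : Type} [Field k] [NumberField k] [Field L] [NumberField L] [Algebra k L]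

lemma fv_lt_one_iff_mem {K : Type} [Field K] [NumberField K] (v : HeightOneSpectrum (𝓞 K))
    (x : 𝓞 K) : fv v (algebraMap (𝓞 K) K x) < 1 ↔ x ∈ v.asIdeal :=
  FinitePlace.norm_lt_one_iff_mem K v x

lemma fv_lt_one_iff {v : HeightOneSpectrum (𝓞 k)} {w : HeightOneSpectrum (𝓞 L)} :
    (∀ y : k, (fv v y < 1 ↔ fv w (algebraMap k L y) < 1)) ↔ w.asIdeal.LiesOver v.asIdeal := by
  constructor
  · intro h
    refine ⟨?_⟩
    ext x
    have h1 : algebraMap k L (algebraMap (𝓞 k) k x) =
        algebraMap (𝓞 L) L (algebraMap (𝓞 k) (𝓞 L) x) := by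
      rw [← IsScalarTower.algebraMap_apply (𝓞 k) k L x,
        ← IsScalarTower.algebraMap_apply (𝓞 k) (𝓞 L) L x]
    rw [← fv_lt_one_iff_mem v x, h, h1, fv_lt_one_iff_mem w]
    exact Iff.rfl
  · intro h y
    rw [fv_ext v w h y]
    exact (pow_lt_one_iff_of_nonneg ((fv v).nonneg y) (ldeg_pos v w h).ne').symm

lemma mk_eq {K : Type} [Field K] [NumberField K] (v : FinitePlace K) (x : K) :
    fv (FinitePlace.equivHeightOneSpectrum v) x = v x :=
  FinitePlace.norm_embedding_eq v x

/-- the sum over the finite places above finitely many finite places -/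
lemma sum_fab (S : Finset (Pl k)) (hS : ∀ v : InfinitePlace k, Sum.inl v ∉ S) (F : Pl L → ℝ) :
    ∑ w ∈ fab L S, F (Sum.inr w) = ∑ v ∈ S, ∑ w ∈ ab L v, F w := by
  classical
  rw [← Finset.sum_biUnion]
  · have h1 : (S.biUnion fun v => ab L v) =
        (∅ : Finset (InfinitePlace L)).disjSum (fab L S) := by
      ext w
      rw [Finset.mem_biUnion]
      cases w with
      | inl w =>
        simp only [Finset.inl_mem_disjSum, Finset.notMem_empty, iff_false]
        rintro ⟨v, hv, hw⟩
        rw [mem_ab] at hw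
        cases v with
        | inl v => exact hS v hv
        | inr v => exact hw.elim
      | inr w =>
        rw [Finset.inr_mem_disjSum, mem_fab]
        simp only [mem_ab]
    rw [h1, Finset.sum_disjSum, Finset.sum_empty, zero_add]
  · intro v _ v' _ hne
    rw [Function.onFun, Finset.disjoint_left]
    intro w hw hw'
    exact hne (ov_unique (mem_ab.1 hw) (mem_ab.1 hw'))

end pls

/-- T6. The finite places above a finite set, in the language of Mathlib. -/
theorem finsum_places {k L : Type} [Field k] [NumberField k] [Field L] [NumberField L]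
    [Algebra k L] (T : Finset (FinitePlace k)) (f : Pl L → ℝ) :
    (∑ᶠ (w : FinitePlace L) (_ : ∃ v ∈ T, ∀ y : k, (v y < 1 ↔ w (algebraMap k L y) < 1)),
      f (Sum.inr (FinitePlace.equivHeightOneSpectrum w))) =
    ∑ v ∈ T, ∑ w ∈ ab L (Sum.inr (FinitePlace.equivHeightOneSpectrum v) : Pl k), f w := by
  classical
  have hinj : Function.Injective
      (fun v : FinitePlace k => (Sum.inr (FinitePlace.equivHeightOneSpectrum v) : Pl k)) :=
    Sum.inr_injective.comp FinitePlace.equivHeightOneSpectrum.injective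
  have h1 : ∑ v ∈ T, ∑ w ∈ ab L (Sum.inr (FinitePlace.equivHeightOneSpectrum v) : Pl k), f w =
      ∑ w ∈ fab L (T.map ⟨_, hinj⟩), f (Sum.inr w) := by
    rw [sum_fab, Finset.sum_map]
    · rfl
    · intro v hv
      rw [Finset.mem_map] at hv
      obtain ⟨u, -, hu⟩ := hv
      exact Sum.inr_ne_inl hu
  rw [h1, ← finsum_mem_coe_finset, ← finsum_comp_equiv (FinitePlace.equivHeightOneSpectrum (K := L))]
  refine finsum_congr fun w => finsum_congr_Prop (propext ?_) fun _ => rfl
  rw [Finset.mem_coe, mem_fab]
  constructor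
  · rintro ⟨v, hv, h⟩
    refine ⟨_, Finset.mem_map_of_mem _ hv, ?_⟩
    show (FinitePlace.equivHeightOneSpectrum w).asIdeal.LiesOver
      (FinitePlace.equivHeightOneSpectrum v).asIdeal
    rw [← fv_lt_one_iff]
    intro y
    rw [mk_eq, mk_eq]
    exact h y
  · rintro ⟨u, hu, h⟩
    rw [Finset.mem_map] at hu
    obtain ⟨v, hv, rfl⟩ := hu
    refine ⟨v, hv, fun y => ?_⟩
    have h2 : (FinitePlace.equivHeightOneSpectrum w).asIdeal.LiesOver
      (FinitePlace.equivHeightOneSpectrum v).asIdeal := h
    rw [← fv_lt_one_iff] at h2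
    have h3 := h2 y
    rw [mk_eq, mk_eq] at h3
    exact h3

/-- T6'. The infinite places. -/
theorem sum_infinite {k L : Type} [Field k] [NumberField k] [Field L] [NumberField L]
    [Algebra k L] (f : Pl L → ℝ) :
    ∑ w : InfinitePlace L, f (Sum.inl w) =
    ∑ v : InfinitePlace k, ∑ w ∈ ab L (Sum.inl v : Pl k), f w := by
  classical
  rw [← Finset.sum_biUnion]
  · have h1 : ((Finset.univ : Finset (InfinitePlace k)).biUnion fun v =>
        ab L (Sum.inl v : Pl k)) =
        (Finset.univ : Finset (InfinitePlace L)).disjSum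
          (∅ : Finset (HeightOneSpectrum (𝓞 L))) := by
      ext w
      rw [Finset.mem_biUnion]
      cases w with
      | inl w =>
        simp only [Finset.inl_mem_disjSum, Finset.mem_univ, iff_true]
        exact ⟨w.comap (algebraMap k L), trivial, mem_ab.2 rfl⟩
      | inr w =>
        simp only [Finset.inr_mem_disjSum, Finset.notMem_empty, iff_false]
        rintro ⟨v, -, hw⟩
        rw [mem_ab] at hw
        exact hw.elim
    rw [h1, Finset.sum_disjSum, Finset.sum_empty, add_zero]
  · intro v _ v' _ hne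
    rw [Function.onFun, Finset.disjoint_left]
    intro w hw hw'
    exact hne (Sum.inl_injective (ov_unique (mem_ab.1 hw) (mem_ab.1 hw')))

/-- T6''. The height. -/
theorem height_places {L : Type} [Field L] [NumberField L] {n : ℕ} (x : Fin n → L) (hx : x ≠ 0) :
    logHeight x = (∑ w : InfinitePlace L, (w.mult : ℝ) * Real.log (⨆ j, w (x j))) +
      ∑ᶠ w : FinitePlace L, Real.log (⨆ j, w (x j)) := by
  classical
  rw [height_sum hx (nrm_support hx).toFinset fun v hv => (Set.Finite.mem_toFinset _).2 hv]
  congr 1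
  rw [← finsum_comp_equiv (FinitePlace.equivHeightOneSpectrum (K := L)).symm]
  symm
  refine finsum_eq_sum_of_support_subset _ fun v hv => ?_
  rw [Set.Finite.coe_toFinset]
  intro h1
  apply hv
  show Real.log (nrm (fv v) x) = 0
  rw [h1, Real.log_one]

end Pool.Agent.H658.Two
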