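import Pool.Agent.H426.Two.Red
import Pool.Agent.H426.Two.PlaT
import Pool.Agent.H426.Ru.Lin

/-!
Hyperplanes in general position.
-/

set_option autoImplicit false

namespace Pool.Agent.H426.Two

open MvPolynomial Finset Module NumberField IsDedekindDomain Height
open Pool.Agent.W180.OP Pool.Agent.W180.TP Pool.Agent.NH28
open Pool.Agent.H426.Ru (lin lin_hom aeval_lin emb_ind lin_no_zero)

section

variable {K : Type} [Field K] [NumberField K]

/-- the size of a fixed vector at the places above a place -/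
lemma coef_bound {n : ℕ} (v : Pl K) (a : Fin n → K) (ha : a ≠ 0) :
    ∃ B : ℝ, 0 ≤ B ∧ ∀ (L : Type) [Field L] [NumberField L] [Algebra K L], ∀ w ∈ ab L v,
      wt w * Real.log (nrm (av w) (fun j => algebraMap K L (a j))) ≤ nn v w * B := by
  classical
  refine ⟨∑ j, |wt v * Real.log (av v (a j))|, Finset.sum_nonneg fun _ _ => abs_nonneg _,
    fun L _ _ _ w hw => ?_⟩
  have hn : 0 < n := by
    rcases Nat.eq_zero_or_pos n with h | h
    · subst h
      exact absurd (Subsingleton.elim a 0) ha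
    · exact h
  obtain ⟨j, hj⟩ := exists_nrm (av w) hn (fun j => algebraMap K L (a j))
  rw [← hj, nn_ext (mem_ab.1 hw)]
  have h1 := one_le_nn (mem_ab.1 hw)
  refine mul_le_mul_of_nonneg_left ?_ (by linarith)
  exact (le_abs_self _).trans (Finset.single_le_sum
    (f := fun j => |wt v * Real.log (av v (a j))|) (fun _ _ => abs_nonneg _) (Finset.mem_univ j))

/-- **The inequality for hyperplanes in general position** -/
theorem hyp_bound {n q r : ℕ} (a : Fin q → Fin (n + 1) → K)
    (hgp : ∀ s : Finset (Fin q), s.card ≤ n + 1 → LinearIndependent K (fun i : s => a i))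
    {ε : ℝ} (hε : 0 < ε) (S : Finset (Pl K)) :
    ∃ C : ℝ, 0 ≤ C ∧ ∀ (L : Type) [Field L] [NumberField L] [Algebra K L], finrank K L ≤ r →
      ∀ x : Fin (n + 1) → L, x ≠ 0 → (∀ i, ∑ j, algebraMap K L (a i j) * x j ≠ 0) →
      ∑ v ∈ S, ∑ w ∈ ab L v, wt w * ∑ i, Real.log (nrm (av w) x *
        nrm (av w) (fun j => algebraMap K L (a i j)) / av w (∑ j, algebraMap K L (a i j) * x j)) ≤
        (2 * (n * finrank K L) + ε) * logHeight x + C := by
  classical
  have ha : ∀ i, a i ≠ 0 := by
    intro i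
    have h1 := hgp {i} (by simp)
    exact h1.ne_zero (⟨i, Finset.mem_singleton_self i⟩ : ({i} : Finset (Fin q)))
  obtain ⟨C, hC0, hC⟩ := red_r (r := r) (N := n) (e := 1) le_rfl
    (Fin.elim0 : Fin 0 → MvPolynomial (Fin (n + 1)) K) Fin.elim0 (fun k => k.elim0)
    (fun i => lin (a i)) (fun i => lin_hom _) (by
      intro J E _ _ x _ h2
      exact lin_no_zero (emb_ind hgp le_rfl J) x h2) hε S
  choose B hB0 hB using fun (p : Pl K × Fin q) => coef_bound p.1 (a p.2) (ha p.2)
  have hBs : 0 ≤ ∑ v ∈ S, ∑ i, B (v, i) :=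
    Finset.sum_nonneg fun v _ => Finset.sum_nonneg fun i _ => hB0 (v, i)
  refine ⟨C + r * ∑ v ∈ S, ∑ i, B (v, i), by positivity, fun L _ _ _ hL x hx hlx => ?_⟩
  have hFx : ∀ i, aeval x (lin (a i)) ≠ 0 := fun i => by
    rw [aeval_lin]
    exact hlx i
  have h1 := hC L hL x hx (fun k => k.elim0) hFx
  have hal : ∀ i, (fun j => algebraMap K L (a i j)) ≠ 0 := by
    intro i h
    apply ha i
    funext j
    have := congrFun h j
    exact (map_eq_zero_iff _ (algebraMap K L).injective).1 this
  have h2 : ∀ v ∈ S, ∑ w ∈ ab L v, wt w * ∑ i, Real.log (nrm (av w) x *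
        nrm (av w) (fun j => algebraMap K L (a i j)) / av w (∑ j, algebraMap K L (a i j) * x j)) ≤
      ∑ w ∈ ab L v, wt w * ∑ i, lam (av w) 1 (bc L (lin (a i))) x + r * ∑ i, B (v, i) := by
    intro v _
    have h3 : ∀ w ∈ ab L v, wt w * ∑ i, Real.log (nrm (av w) x *
        nrm (av w) (fun j => algebraMap K L (a i j)) / av w (∑ j, algebraMap K L (a i j) * x j)) ≤
        wt w * ∑ i, lam (av w) 1 (bc L (lin (a i))) x + nn v w * ∑ i, B (v, i) := by
      intro w hw
      rw [Finset.mul_sum, Finset.mul_sum, Finset.mul_sum, ← Finset.sum_add_distrib]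
      refine Finset.sum_le_sum fun i _ => ?_
      have h4 := hB (v, i) L w hw
      have h5 : eval x (bc L (lin (a i))) = ∑ j, algebraMap K L (a i j) * x j := by
        rw [eval_bc, aeval_lin]
      rw [lam_eq (av w) 1 _ hx (by rw [h5]; exact hlx i), h5,
        Real.log_div (mul_pos (nrm_pos _ hx) (nrm_pos _ (hal i))).ne'
          ((av w).pos_iff.2 (hlx i)).ne', Real.log_mul (nrm_pos _ hx).ne' (nrm_pos _ (hal i)).ne',
        Nat.cast_one, one_mul]
      have h6 : wt w * (Real.log (nrm (av w) x) + Real.log (nrm (av w) fun j =>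
          algebraMap K L (a i j)) - Real.log (av w (∑ j, algebraMap K L (a i j) * x j))) =
          wt w * (Real.log (nrm (av w) x) - Real.log (av w (∑ j, algebraMap K L (a i j) * x j))) +
          wt w * Real.log (nrm (av w) fun j => algebraMap K L (a i j)) := by ring
      rw [h6]
      linarith
    refine (Finset.sum_le_sum h3).trans ?_
    rw [Finset.sum_add_distrib, ← Finset.sum_mul, sum_nn]
    have h7 : (finrank K L : ℝ) ≤ r := by exact_mod_cast hL
    have h8 : 0 ≤ ∑ i, B (v, i) := Finset.sum_nonneg fun i _ => hB0 (v, i)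
    have h9 := mul_le_mul_of_nonneg_right h7 h8
    linarith
  refine (Finset.sum_le_sum h2).trans ?_
  rw [Finset.sum_add_distrib, ← Finset.mul_sum]
  rw [Nat.cast_one, one_mul] at h1
  linarith

/-- the inequality in the language of Mathlib -/
theorem main_hyp {n q : ℕ} (T : Finset (FinitePlace K)) (a : Fin q → Fin (n + 1) → K)
    (hgp : ∀ s : Finset (Fin q), s.card ≤ n + 1 → LinearIndependent K (fun i : s => a i))
    (r : ℕ) {ε : ℝ} (hε : 0 < ε) :
    ∃ C : ℝ, 0 ≤ C ∧ ∀ (L : Type) [Field L] [NumberField L] [Algebra K L], finrank K L ≤ r →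
      ∀ x : Fin (n + 1) → L, x ≠ 0 → (∀ i, ∑ j, algebraMap K L (a i j) * x j ≠ 0) →
      (∑ w : InfinitePlace L, (w.mult : ℝ) *
          ∑ i, Real.log ((⨆ j, w (x j)) * (⨆ j, w (algebraMap K L (a i j))) /
            w (∑ j, algebraMap K L (a i j) * x j))) +
        ∑ᶠ (w : FinitePlace L) (_ : ∃ v ∈ T, ∀ y : K, (v y < 1 ↔ w (algebraMap K L y) < 1)),
          ∑ i, Real.log ((⨆ j, w (x j)) * (⨆ j, w (algebraMap K L (a i j))) /
            w (∑ j, algebraMap K L (a i j) * x j)) ≤
      (2 * (n * finrank K L) + ε) * ((∑ w : InfinitePlace L, (w.mult : ℝ) *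
        Real.log (⨆ j, w (x j))) + ∑ᶠ w : FinitePlace L, Real.log (⨆ j, w (x j))) + C := by
  classical
  obtain ⟨C, hC0, hC⟩ := hyp_bound (r := r) a hgp hε
    ((Finset.univ : Finset (InfinitePlace K)).disjSum
      (T.map (FinitePlace.equivHeightOneSpectrum (K := K)).toEmbedding))
  refine ⟨C, hC0, fun L _ _ _ hL x hx hlx => ?_⟩
  have h1 := hC L hL x hx hlx
  rw [Finset.sum_disjSum, Finset.sum_map] at h1
  rw [← Pool.Agent.H658.Two.height_places x hx]
  refine le_trans (le_of_eq ?_) h1
  congr 1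
  · exact Pool.Agent.H658.Two.sum_infinite (k := K) (fun w : Pl L => wt w * ∑ i,
      Real.log (nrm (av w) x * nrm (av w) (fun j => algebraMap K L (a i j)) /
        av w (∑ j, algebraMap K L (a i j) * x j)))
  · have h2 := Pool.Agent.H658.Two.finsum_places T (fun w : Pl L => wt w * ∑ i,
      Real.log (nrm (av w) x * nrm (av w) (fun j => algebraMap K L (a i j)) /
        av w (∑ j, algebraMap K L (a i j) * x j)))
    refine Eq.trans ?_ h2
    refine finsum_congr fun w => finsum_congr fun _ => ?_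
    have h3 : av (Sum.inr (FinitePlace.equivHeightOneSpectrum w) : Pl L) =
        fv (FinitePlace.equivHeightOneSpectrum w) := rfl
    have h4 : wt (Sum.inr (FinitePlace.equivHeightOneSpectrum w) : Pl L) = 1 := rfl
    rw [h3, h4, one_mul]
    refine Finset.sum_congr rfl fun i _ => ?_
    unfold nrm
    simp only [Pool.Agent.H658.Two.mk_eq]

end

end Pool.Agent.H426.Two
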