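import Pool.Agent.H426.Two.Defs
import Pool.Graph.R_pool_sql_team_seeded_3dad9d7b.NH28.Mono
import Pool.Graph.R_seed8.TH875.Cm5

/-!
The size of the vector of norms at a place.
-/

set_option autoImplicit false

namespace Pool.Agent.H996.Two

open MvPolynomial Finset Module NumberField IsDedekindDomain Height
open Pool.Agent.TH875 (VM)
open Pool.Agent.H426.Ru (HG)
open Pool.Agent.H426.Two
open Pool.Agent.W180.OP (Pl av wt fv nrm bc lam lam_eq eval_bc le_nrm wt_nonneg)
open Pool.Agent.NH28 (Ov nn ab)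

/-- A subset of more than `N` elements contains the image of an embedding of `Fin (N + 1)`. -/
lemma exists_emb {q N : ℕ} (B : Finset (Fin q)) (hB : N < B.card) :
    ∃ J : Fin (N + 1) ↪ Fin q, ∀ k, J k ∈ B := by
  obtain ⟨T, hT, hc⟩ := Finset.exists_subset_card_eq (Nat.succ_le_of_lt hB)
  refine ⟨(T.orderEmbOfFin hc).toEmbedding, fun k => hT ?_⟩
  exact T.orderEmbOfFin_mem hc k

theorem nrm_norm_ge
    (h5 : ∀ (K L : Type) [Field K] [NumberField K] [Field L] [NumberField L] [Algebra K L]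
      (v : Pl K) (z : L), z ≠ 0 →
      ∑ w ∈ ab L v, wt w * Real.log (av w z) = wt v * Real.log (av v (Algebra.norm K z)))
    {K : Type} [Field K] [NumberField K] {n m q N e δ : ℕ} (hq : N * δ < q)
    (G : Fin m → MvPolynomial (Fin n) K) (g : Fin m → ℕ) (hG : ∀ k, (G k).IsHomogeneous (g k))
    (F : Fin q → MvPolynomial (Fin n) K) (hF : ∀ i, (F i).IsHomogeneous e)
    (hgp : ∀ J : Fin (N + 1) ↪ Fin q, ∀ (E : Type) [Field E] [Algebra K E] (x : Fin n → E),
      (∀ k, aeval x (G k) = 0) → (∀ k, aeval x (F (J k)) = 0) → x = 0) (v : Pl K) :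
    ∃ C : ℝ, 0 ≤ C ∧ ∀ (L : Type) [Field L] [NumberField L] [Algebra K L], finrank K L ≤ δ →
      ∀ x : Fin n → L, x ≠ 0 → (∀ k, aeval x (G k) = 0) → (∀ j, aeval x (F j) ≠ 0) →
      e * ∑ w ∈ ab L v, wt w * Real.log (nrm (av w) x) ≤
        wt v * Real.log (nrm (av v) (fun j => Algebra.norm K (aeval x (F j)))) + C := by
  classical
  have hJ : ∀ J : Fin (N + 1) ↪ Fin q, ∃ C : ℝ, 0 ≤ C ∧
      ∀ (L : Type) [Field L] [NumberField L] [Algebra K L] (p : Pl L)
      (x : Fin n → L), x ≠ 0 → (∀ k, aeval x (G k) = 0) → (∀ k, aeval x (F (J k)) ≠ 0) →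
        ∃ k, wt p * lam (av p) e (bc L (F (J k))) x ≤ C * Module.finrank ℚ L := fun J =>
    Pool.Agent.TH875.not_all (Nat.succ_pos N) G g hG (fun k => F (J k)) (fun k => hF (J k))
      (fun L _ _ x h1 h2 => hgp J L x h1 h2)
  choose c hc0 hc using hJ
  set C₀ : ℝ := ∑ J, c J with hC₀
  have hC₀0 : 0 ≤ C₀ := Finset.sum_nonneg fun J _ => hc0 J
  refine ⟨δ * (C₀ * (finrank ℚ K * δ)), by positivity, fun L _ _ _ hL x hx hGx hFx => ?_⟩
  have hfin : (finrank ℚ L : ℝ) ≤ finrank ℚ K * δ := by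
    have h1 : finrank ℚ K * finrank K L = finrank ℚ L := finrank_mul_finrank ℚ K L
    rw [← h1, Nat.cast_mul]
    exact mul_le_mul_of_nonneg_left (by exact_mod_cast hL) (Nat.cast_nonneg _)
  -- the bad indices
  set B : Pl L → Finset (Fin q) := fun w => Finset.univ.filter fun j =>
    C₀ * finrank ℚ L < wt w * lam (av w) e (bc L (F j)) x with hB
  have hBc : ∀ w, (B w).card ≤ N := by
    intro w
    by_contra h
    rw [not_le] at h
    obtain ⟨J, hJB⟩ := exists_emb (B w) h
    obtain ⟨k, hk⟩ := hc J L w x hx hGx (fun k => hFx (J k))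
    have h1 := (Finset.mem_filter.1 (hJB k)).2
    have h2 : c J ≤ C₀ := Finset.single_le_sum (f := c) (fun J _ => hc0 J) (Finset.mem_univ J)
    have h3 : c J * finrank ℚ L ≤ C₀ * finrank ℚ L :=
      mul_le_mul_of_nonneg_right h2 (Nat.cast_nonneg _)
    linarith
  have hcard : ((ab L v).biUnion B).card < q := by
    refine lt_of_le_of_lt Finset.card_biUnion_le ?_
    refine lt_of_le_of_lt (Finset.sum_le_card_nsmul _ _ N fun w _ => hBc w) ?_
    have h1 : (ab L v).card ≤ δ := (Pool.Agent.NH28.card_ab_le L v).trans hL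
    rw [smul_eq_mul]
    calc (ab L v).card * N ≤ δ * N := Nat.mul_le_mul_right N h1
      _ = N * δ := mul_comm _ _
      _ < q := hq
  obtain ⟨j, hj⟩ : ∃ j, j ∉ (ab L v).biUnion B := by
    by_contra h
    push Not at h
    have h1 : (ab L v).biUnion B = Finset.univ := Finset.eq_univ_iff_forall.2 h
    rw [h1, Finset.card_univ, Fintype.card_fin] at hcard
    exact lt_irrefl _ hcard
  have hgood : ∀ w ∈ ab L v, wt w * lam (av w) e (bc L (F j)) x ≤ C₀ * finrank ℚ L := by
    intro w hw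
    by_contra h
    rw [not_le] at h
    exact hj (Finset.mem_biUnion.2 ⟨w, hw, Finset.mem_filter.2 ⟨Finset.mem_univ _, h⟩⟩)
  have hsum := Finset.sum_le_sum hgood
  have h1 : ∑ w ∈ ab L v, wt w * lam (av w) e (bc L (F j)) x =
      e * ∑ w ∈ ab L v, wt w * Real.log (nrm (av w) x) -
        ∑ w ∈ ab L v, wt w * Real.log (av w (aeval x (F j))) := by
    rw [Finset.mul_sum, ← Finset.sum_sub_distrib]
    refine Finset.sum_congr rfl fun w _ => ?_
    have h2 : eval x (bc L (F j)) ≠ 0 := by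
      rw [eval_bc]
      exact hFx j
    rw [lam_eq _ _ _ hx h2, eval_bc]
    ring
  rw [h1, h5 K L v _ (hFx j), Finset.sum_const, nsmul_eq_mul] at hsum
  have h2 : Real.log (av v (Algebra.norm K (aeval x (F j)))) ≤
      Real.log (nrm (av v) (fun j => Algebra.norm K (aeval x (F j)))) := by
    refine Real.log_le_log ((av v).pos_iff.2 ?_) ?_
    · exact Algebra.norm_ne_zero_iff.2 (hFx j)
    · exact le_nrm (av v) (fun j => Algebra.norm K (aeval x (F j))) j
  have h3 := mul_le_mul_of_nonneg_left h2 (wt_nonneg v)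
  have h4 : ((ab L v).card : ℝ) * (C₀ * finrank ℚ L) ≤ δ * (C₀ * (finrank ℚ K * δ)) := by
    refine mul_le_mul ?_ (mul_le_mul_of_nonneg_left hfin hC₀0) (by positivity) (by positivity)
    exact_mod_cast (Pool.Agent.NH28.card_ab_le L v).trans hL
  linarith

end Pool.Agent.H996.Two
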