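import Pool.Graph.R_pool_sql_team_seeded_3dad9d7b.NH28.PlaInf

/-!
T5 (subtask 4080 of helper426, by helper738): the norm at a place is the product over the places above.
-/

set_option autoImplicit false

namespace Pool.Agent.H738.Two5

open NumberField IsDedekindDomain Finset Module
open Pool.Agent.W180.OP (Pl av wt fv)
open Pool.Agent.NH28 (Ov ab mem_ab exists_over)

section fin

variable {K L : Type} [Field K] [NumberField K] [Field L] [NumberField L] [Algebra K L]

lemma log_fv (w : HeightOneSpectrum (𝓞 L)) {x : 𝓞 L} (hx : x ≠ 0) :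
    Real.log (fv w (x : L)) =
      -((multiplicity w.asIdeal (Ideal.span {x}) : ℝ) * Real.log (Ideal.absNorm w.asIdeal)) := by
  have e1 : fv w (x : L) = (WithZeroMulInt.toNNReal
      (NumberField.HeightOneSpectrum.absNorm_ne_zero w) (w.valuation L (x : L)) : ℝ) :=
    FinitePlace.norm_embedding' (v := w) (x := (x : L))
  have e2 : w.valuation L (x : L) =
      WithZero.exp (-(multiplicity w.asIdeal (Ideal.span {x}) : ℤ)) := by
    rw [show ((x : L)) = algebraMap (𝓞 L) L x from rfl, HeightOneSpectrum.valuation_of_algebraMap,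
      w.intValuation_eq_exp_neg_multiplicity hx]
  rw [e1, e2, WithZeroMulInt.toNNReal_neg_apply _ WithZero.exp_ne_zero]
  have e3 : (WithZero.unzero (WithZero.exp_ne_zero
      (a := -(multiplicity w.asIdeal (Ideal.span {x}) : ℤ)))).toAdd =
      -(multiplicity w.asIdeal (Ideal.span {x}) : ℤ) := rfl
  rw [e3, NNReal.coe_zpow, Real.log_zpow]
  push_cast
  ring

/-- multiplicity of a prime ideal in another one -/
lemma mult_prime {R : Type} [CommRing R] [IsDedekindDomain R] (v : HeightOneSpectrum R)
    {P : Ideal R} (hP : P.IsPrime) (hP0 : P ≠ ⊥) (s : ℕ) :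
    multiplicity v.asIdeal (P ^ s) = if P = v.asIdeal then s else 0 := by
  split_ifs with h
  · rw [h, multiplicity_pow_self_of_prime v.prime]
  · rw [multiplicity_eq_zero]
    intro hd
    have h1 := v.prime.dvd_of_dvd_pow hd
    have h2 : P ≤ v.asIdeal := Ideal.dvd_iff_le.1 h1
    have hPm : P.IsMaximal := Ring.DimensionLEOne.maximalOfPrime hP0 hP
    exact h (hPm.eq_of_le v.isPrime.ne_top h2)

lemma fin_mult {R : Type} [CommRing R] [IsDedekindDomain R] (v : HeightOneSpectrum R)
    {I : Ideal R} (hI : I ≠ ⊥) : FiniteMultiplicity v.asIdeal I :=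
  FiniteMultiplicity.of_prime_left v.prime hI

theorem ideal_eq (v : HeightOneSpectrum (𝓞 K)) (T : Finset (HeightOneSpectrum (𝓞 L)))
    (hT : ∀ w, w ∈ T ↔ w.asIdeal.LiesOver v.asIdeal) (I : Ideal (𝓞 L)) (hI : I ≠ ⊥) :
    ∑ w ∈ T, (multiplicity w.asIdeal I : ℝ) * Real.log (Ideal.absNorm w.asIdeal) =
      (multiplicity v.asIdeal (Ideal.relNorm (𝓞 K) I) : ℝ) *
        Real.log (Ideal.absNorm v.asIdeal) := by
  classical
  induction I using UniqueFactorizationMonoid.induction_on_prime with
  | h₁ => exact absurd rfl hI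
  | h₂ I hu =>
    have h1 : I = 1 := by
      rw [Ideal.one_eq_top]
      exact Ideal.isUnit_iff.1 hu
    subst h1
    rw [map_one, multiplicity_of_isUnit_right v.prime.not_isUnit isUnit_one, Nat.cast_zero,
      zero_mul]
    refine Finset.sum_eq_zero fun w _ => ?_
    rw [multiplicity_of_isUnit_right w.prime.not_isUnit isUnit_one, Nat.cast_zero, zero_mul]
  | h₃ J P hJ hP ih =>
    have hP0 : P ≠ ⊥ := hP.ne_zero
    have hPp : P.IsPrime := Ideal.isPrime_of_prime hP
    have hrP : Ideal.relNorm (𝓞 K) P ≠ ⊥ := fun h => hP0 (Ideal.relNorm_eq_bot_iff.1 h)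
    have hrJ : Ideal.relNorm (𝓞 K) J ≠ ⊥ := fun h => hJ (Ideal.relNorm_eq_bot_iff.1 h)
    have e1 : multiplicity v.asIdeal (Ideal.relNorm (𝓞 K) (P * J)) =
        multiplicity v.asIdeal (Ideal.relNorm (𝓞 K) P) +
          multiplicity v.asIdeal (Ideal.relNorm (𝓞 K) J) := by
      rw [map_mul]
      exact multiplicity_mul v.prime (fin_mult v (mul_ne_zero hrP hrJ))
    have e2 : ∀ w : HeightOneSpectrum (𝓞 L), multiplicity w.asIdeal (P * J) =
        multiplicity w.asIdeal P + multiplicity w.asIdeal J := fun w =>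
      multiplicity_mul w.prime (fin_mult w (mul_ne_zero hP0 hJ))
    rw [e1, Nat.cast_add, add_mul, ← ih hJ]
    have e3 : ∑ w ∈ T, (multiplicity w.asIdeal (P * J) : ℝ) * Real.log (Ideal.absNorm w.asIdeal) =
        ∑ w ∈ T, (multiplicity w.asIdeal P : ℝ) * Real.log (Ideal.absNorm w.asIdeal) +
        ∑ w ∈ T, (multiplicity w.asIdeal J : ℝ) * Real.log (Ideal.absNorm w.asIdeal) := by
      rw [← Finset.sum_add_distrib]
      refine Finset.sum_congr rfl fun w _ => ?_
      rw [e2, Nat.cast_add, add_mul]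
    rw [e3]
    congr 1
    -- the prime `P`
    set w0 : HeightOneSpectrum (𝓞 L) := ⟨P, hPp, hP0⟩ with hw0
    have e4 : ∀ w : HeightOneSpectrum (𝓞 L), multiplicity w.asIdeal P =
        if w0 = w then 1 else 0 := by
      intro w
      have h1 := mult_prime w hPp hP0 1
      rw [pow_one] at h1
      rw [h1]
      by_cases h2 : w0 = w
      · rw [if_pos h2, if_pos (by rw [← h2])]
      · rw [if_neg h2, if_neg fun h3 => h2 (HeightOneSpectrum.ext h3)]
    set p : Ideal (𝓞 K) := P.under (𝓞 K) with hp
    have hlies : P.LiesOver p := ⟨rfl⟩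
    have hpp : p.IsPrime := Ideal.IsPrime.under _ _
    have hp0 : p ≠ ⊥ := by
      obtain ⟨x, hx, hx0⟩ := Submodule.exists_mem_ne_zero_of_ne_bot hP0
      exact Ideal.comap_ne_bot_of_integral_mem hx0 hx (Algebra.IsIntegral.isIntegral x)
    obtain ⟨s, hs⟩ := Ideal.exists_relNorm_eq_pow_of_isPrime P p
    have hN : Ideal.absNorm p ^ s = Ideal.absNorm P := by
      rw [← map_pow, ← hs, Ideal.absNorm_relNorm]
    rw [hs, mult_prime v hpp hp0 s]
    by_cases hpv : p = v.asIdeal
    · have hmem : w0 ∈ T := by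
        rw [hT]
        rw [← hpv]
        exact hlies
      rw [Finset.sum_eq_single_of_mem w0 hmem, e4, if_pos rfl, if_pos hpv, Nat.cast_one, one_mul,
        ← hpv]
      · show Real.log (Ideal.absNorm P) = _
        rw [← hN, Nat.cast_pow, Real.log_pow]
      · intro w _ hw
        rw [e4, if_neg (fun h => hw h.symm), Nat.cast_zero, zero_mul]
    · rw [if_neg hpv, Nat.cast_zero, zero_mul]
      refine Finset.sum_eq_zero fun w hw => ?_
      rw [e4, if_neg, Nat.cast_zero, zero_mul]
      rintro rfl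
      apply hpv
      exact ((hT _).1 hw).over.symm

theorem norm_int (v : HeightOneSpectrum (𝓞 K)) (T : Finset (HeightOneSpectrum (𝓞 L)))
    (hT : ∀ w, w ∈ T ↔ w.asIdeal.LiesOver v.asIdeal) {x : 𝓞 L} (hx : x ≠ 0) :
    ∑ w ∈ T, Real.log (fv w (x : L)) = Real.log (fv v (Algebra.norm K (x : L))) := by
  have h1 := ideal_eq v T hT (Ideal.span {x}) (by rwa [Ne, Ideal.span_singleton_eq_bot])
  rw [Ideal.relNorm_singleton] at h1
  have h2 : ((Algebra.intNorm (𝓞 K) (𝓞 L) x : 𝓞 K) : K) = Algebra.norm K (x : L) :=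
    Algebra.algebraMap_intNorm (A := 𝓞 K) (K := K) (L := L) (B := 𝓞 L) x
  have h3 : Algebra.intNorm (𝓞 K) (𝓞 L) x ≠ 0 := by
    intro h
    rw [h] at h2
    have h4 : Algebra.norm K (x : L) = 0 := h2.symm.trans rfl
    rw [Algebra.norm_eq_zero_iff] at h4
    exact hx (RingOfIntegers.coe_injective (h4.trans rfl))
  rw [← h2, log_fv v h3, ← h1, ← Finset.sum_neg_distrib]
  exact Finset.sum_congr rfl fun w _ => log_fv w hx

theorem norm_fin (v : HeightOneSpectrum (𝓞 K)) (T : Finset (HeightOneSpectrum (𝓞 L)))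
    (hT : ∀ w, w ∈ T ↔ w.asIdeal.LiesOver v.asIdeal) {z : L} (hz : z ≠ 0) :
    ∑ w ∈ T, Real.log (fv w z) = Real.log (fv v (Algebra.norm K z)) := by
  obtain ⟨a, b, hb, rfl⟩ := IsFractionRing.div_surjective (A := 𝓞 L) z
  have hb0 : b ≠ 0 := nonZeroDivisors.ne_zero hb
  have ha0 : a ≠ 0 := by
    rintro rfl
    rw [map_zero, zero_div] at hz
    exact hz rfl
  have hbL : algebraMap (𝓞 L) L b ≠ 0 := fun h => hb0 (RingOfIntegers.coe_injective (h.trans rfl))
  have haL : algebraMap (𝓞 L) L a ≠ 0 := fun h => ha0 (RingOfIntegers.coe_injective (h.trans rfl))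
  have h1 := norm_int v T hT ha0
  have h2 := norm_int v T hT hb0
  have h3 : Algebra.norm K (algebraMap (𝓞 L) L a / algebraMap (𝓞 L) L b) =
      Algebra.norm K (algebraMap (𝓞 L) L a) / Algebra.norm K (algebraMap (𝓞 L) L b) := by
    rw [eq_div_iff (fun h => hbL (Algebra.norm_eq_zero_iff.1 h)), ← map_mul,
      div_mul_cancel₀ _ hbL]
  rw [h3, map_div₀ (fv v), Real.log_div, ← h1, ← h2, ← Finset.sum_sub_distrib]
  · refine Finset.sum_congr rfl fun w _ => ?_
    rw [map_div₀, Real.log_div]
    · exact (map_ne_zero _).2 haL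
    · exact (map_ne_zero _).2 hbL
  · exact (map_ne_zero _).2 (fun h => haL (Algebra.norm_eq_zero_iff.1 h))
  · exact (map_ne_zero _).2 (fun h => hbL (Algebra.norm_eq_zero_iff.1 h))

end fin

section inf

variable {K L : Type} [Field K] [NumberField K] [Field L] [NumberField L] [Algebra K L]

open scoped Classical in
/-- the norm and the extensions of an embedding -/
theorem norm_ext (ψ : K →+* ℂ) {z : L} (hz : z ≠ 0) :
    ∑ φ ∈ (Finset.univ : Finset (L →+* ℂ)).filter (fun φ => φ.comp (algebraMap K L) = ψ),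
      Real.log ‖φ z‖ = Real.log ‖ψ (Algebra.norm K z)‖ := by
  let _ : Algebra K ℂ := ψ.toAlgebra
  have h1 : ψ (Algebra.norm K z) = ∏ σ : L →ₐ[K] ℂ, σ z := Algebra.norm_eq_prod_embeddings K ℂ z
  rw [h1, norm_prod, Real.log_prod]
  · refine Finset.sum_bij' (fun φ hφ => ({ φ with
      commutes' := fun x => by
        have := (Finset.mem_filter.1 hφ).2
        exact congrArg (fun g : K →+* ℂ => g x) this } : L →ₐ[K] ℂ))
      (fun σ _ => σ.toRingHom) ?_ ?_ ?_ ?_ ?_
    · intro a _
      exact Finset.mem_univ _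
    · intro σ _
      rw [Finset.mem_filter]
      refine ⟨Finset.mem_univ _, ?_⟩
      ext x
      exact σ.commutes x
    · intro φ _
      rfl
    · intro σ _
      rfl
    · intro φ _
      rfl
  · intro σ _
    exact norm_ne_zero_iff.2 ((map_ne_zero σ).2 hz)

open scoped Classical in
theorem norm_inf (v : InfinitePlace K) {z : L} (hz : z ≠ 0) :
    ∑ w ∈ (Finset.univ : Finset (InfinitePlace L)).filter fun w =>
      w.comap (algebraMap K L) = v, (w.mult : ℝ) * Real.log (w z) =
      (v.mult : ℝ) * Real.log (v (Algebra.norm K z)) := by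
  have h1 : ∀ w : InfinitePlace L, (w.mult : ℝ) * Real.log (w z) =
      ∑ φ ∈ (Finset.univ : Finset (L →+* ℂ)).filter (fun φ => InfinitePlace.mk φ = w),
        Real.log ‖φ z‖ := by
    intro w
    have h2 : ∀ φ ∈ (Finset.univ : Finset (L →+* ℂ)).filter (fun φ => InfinitePlace.mk φ = w),
        Real.log ‖φ z‖ = Real.log (w z) := by
      intro φ hφ
      rw [← (Finset.mem_filter.1 hφ).2]
      rfl
    rw [Finset.sum_congr rfl h2, Finset.sum_const, InfinitePlace.card_filter_mk_eq, nsmul_eq_mul]
  rw [Finset.sum_congr rfl fun w _ => h1 w]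
  have h3 : ∑ w ∈ (Finset.univ : Finset (InfinitePlace L)).filter fun w =>
      w.comap (algebraMap K L) = v, ∑ φ ∈ (Finset.univ : Finset (L →+* ℂ)).filter (fun φ =>
        InfinitePlace.mk φ = w), Real.log ‖φ z‖ =
      ∑ φ ∈ (Finset.univ : Finset (L →+* ℂ)).filter (fun φ =>
        InfinitePlace.mk (φ.comp (algebraMap K L)) = v), Real.log ‖φ z‖ := by
    rw [← Finset.sum_fiberwise_of_maps_to (s := (Finset.univ : Finset (L →+* ℂ)).filter (fun φ =>
        InfinitePlace.mk (φ.comp (algebraMap K L)) = v))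
        (t := (Finset.univ : Finset (InfinitePlace L)).filter fun w =>
      w.comap (algebraMap K L) = v) (g := fun φ : L →+* ℂ => InfinitePlace.mk φ)]
    · refine Finset.sum_congr rfl fun w hw => ?_
      refine Finset.sum_congr ?_ fun _ _ => rfl
      ext φ
      simp only [Finset.mem_filter, Finset.mem_univ, true_and]
      constructor
      · intro h
        refine ⟨?_, h⟩
        rw [← InfinitePlace.comap_mk, h]
        exact (Finset.mem_filter.1 hw).2
      · exact fun h => h.2
    · intro φ hφ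
      have := (Finset.mem_filter.1 hφ).2
      rw [Finset.mem_filter]
      exact ⟨Finset.mem_univ _, by rw [InfinitePlace.comap_mk]; exact this⟩
  rw [h3, ← Finset.sum_fiberwise_of_maps_to (s := (Finset.univ : Finset (L →+* ℂ)).filter (fun φ =>
        InfinitePlace.mk (φ.comp (algebraMap K L)) = v))
        (t := (Finset.univ : Finset (K →+* ℂ)).filter fun ψ => InfinitePlace.mk ψ = v)
        (g := fun φ : L →+* ℂ => φ.comp (algebraMap K L))]
  · have h4 : ∀ ψ ∈ (Finset.univ : Finset (K →+* ℂ)).filter (fun ψ => InfinitePlace.mk ψ = v),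
        ∑ φ ∈ ((Finset.univ : Finset (L →+* ℂ)).filter fun φ =>
          InfinitePlace.mk (φ.comp (algebraMap K L)) = v).filter (fun φ =>
            φ.comp (algebraMap K L) = ψ), Real.log ‖φ z‖ =
          Real.log (v (Algebra.norm K z)) := by
      intro ψ hψ
      have h5 := (Finset.mem_filter.1 hψ).2
      have h6 : Real.log (v (Algebra.norm K z)) = Real.log ‖ψ (Algebra.norm K z)‖ := by
        rw [← h5]
        rfl
      rw [h6, ← norm_ext ψ hz]
      refine Finset.sum_congr ?_ fun _ _ => rfl
      ext φ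
      simp only [Finset.mem_filter, Finset.mem_univ, true_and]
      constructor
      · exact fun h => h.2
      · intro h
        refine ⟨?_, h⟩
        rw [h]
        exact h5
    rw [Finset.sum_congr rfl h4, Finset.sum_const, InfinitePlace.card_filter_mk_eq, nsmul_eq_mul]
  · intro φ hφ
    have := (Finset.mem_filter.1 hφ).2
    rw [Finset.mem_filter]
    exact ⟨Finset.mem_univ _, this⟩

end inf

/-- T5. The norm at a place. -/
theorem norm_places {K L : Type} [Field K] [NumberField K] [Field L] [NumberField L] [Algebra K L]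
    (v : Pl K) (z : L) (hz : z ≠ 0) :
    ∑ w ∈ ab L v, wt w * Real.log (av w z) = wt v * Real.log (av v (Algebra.norm K z)) := by
  classical
  cases v with
  | inl v =>
    have h1 : ab L (Sum.inl v : Pl K) = ((Finset.univ : Finset (InfinitePlace L)).filter fun w =>
      w.comap (algebraMap K L) = v).map ⟨Sum.inl, Sum.inl_injective⟩ := by
      ext w
      rw [mem_ab]
      cases w with
      | inl w =>
        simp only [Finset.mem_map, Finset.mem_filter, Finset.mem_univ, true_and,
          Function.Embedding.coeFn_mk, Sum.inl.injEq, exists_eq_right]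
        exact Iff.rfl
      | inr w =>
        simp only [Finset.mem_map, Finset.mem_filter, Finset.mem_univ, true_and,
          Function.Embedding.coeFn_mk, reduceCtorEq, and_false, exists_false, iff_false]
        exact fun h => h
    rw [h1, Finset.sum_map]
    exact norm_inf v hz
  | inr v =>
    obtain ⟨T, hT, -⟩ := exists_over L v
    have h1 : ab L (Sum.inr v : Pl K) = T.map ⟨Sum.inr, Sum.inr_injective⟩ := by
      ext w
      rw [mem_ab]
      cases w with
      | inl w =>
        simp only [Finset.mem_map, Function.Embedding.coeFn_mk, reduceCtorEq, and_false,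
          exists_false, iff_false]
        exact fun h => h
      | inr w =>
        simp only [Finset.mem_map, Function.Embedding.coeFn_mk, Sum.inr.injEq, exists_eq_right]
        exact (hT w).symm
    rw [h1, Finset.sum_map]
    have h2 := norm_fin v T hT hz
    have h3 : ∀ w ∈ T, wt ((⟨Sum.inr, Sum.inr_injective⟩ : HeightOneSpectrum (𝓞 L) ↪ Pl L) w) *
        Real.log (av ((⟨Sum.inr, Sum.inr_injective⟩ : HeightOneSpectrum (𝓞 L) ↪ Pl L) w) z) =
        Real.log (fv w z) := fun w _ => one_mul _
    rw [Finset.sum_congr rfl h3, h2]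
    exact (one_mul _).symm

end Pool.Agent.H738.Two5

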