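import Pool.Agent.H426.Two.GT2
import Pool.Agent.H426.Two.PC
import Pool.Agent.H426.Two.NP
import Pool.Agent.H426.Two.HN
import Pool.Agent.H426.Two.NN

/-!
The reduction of the inequality for the points of bounded degree to rational points.
-/

set_option autoImplicit false

namespace Pool.Agent.H426.Two

open MvPolynomial Finset Module NumberField IsDedekindDomain Height
open Pool.Agent.W180.OP Pool.Agent.W180.TP Pool.Agent.NH28
open Pool.Agent.TH875 (VM VM_finite not_all form_ub)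
open Pool.Agent.H426.Ru (HG noeth main_f cone)

/-- the norms of the values satisfy the equations of the products -/
lemma norm_mem {K L : Type} [Field K] [NumberField K] [Field L] [NumberField L] [Algebra K L]
    {n m q δ : ℕ} (hδ : finrank K L = δ) (G : Fin m → MvPolynomial (Fin n) K)
    (F : Fin q → MvPolynomial (Fin n) K) (p : MvPolynomial (Fin q) K)
    (h : ∀ (E : Type) [Field E] [Algebra K E] (x : Fin δ → Fin n → E),
      (∀ s k, aeval (x s) (G k) = 0) → aeval (fun j => ∏ s, aeval (x s) (F j)) p = 0)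
    (x : Fin n → L) (hx : ∀ k, aeval x (G k) = 0) :
    aeval (fun j => Algebra.norm K (aeval x (F j))) p = 0 := by
  classical
  have hfin : FiniteDimensional K L := Module.Finite.of_restrictScalars_finite ℚ K L
  have hcard : Fintype.card (L →ₐ[K] AlgebraicClosure K) = Fintype.card (Fin δ) := by
    rw [Fintype.card_fin, ← hδ]
    exact AlgHom.card K L (AlgebraicClosure K)
  obtain ⟨σ⟩ : Nonempty (Fin δ ≃ (L →ₐ[K] AlgebraicClosure K)) := by
    rw [← Fintype.card_eq]
    exact hcard.symm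
  have hcomp : ∀ (s : Fin δ) (f : MvPolynomial (Fin n) K),
      aeval (fun i => σ s (x i)) f = σ s (aeval x f) := by
    intro s f
    have := comp_aeval_apply (σ s) (f := x) f
    exact this.symm
  have h1 := h (AlgebraicClosure K) (fun s i => σ s (x i)) (by
    intro s k
    rw [hcomp, hx k, map_zero])
  have h2 : ∀ j, ∏ s, aeval (fun i => σ s (x i)) (F j) =
      algebraMap K (AlgebraicClosure K) (Algebra.norm K (aeval x (F j))) := by
    intro j
    rw [Algebra.norm_eq_prod_embeddings K (AlgebraicClosure K)]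
    rw [← Equiv.prod_comp σ]
    exact Finset.prod_congr rfl fun s _ => hcomp s _
  have h3 : (fun j => ∏ s, aeval (fun i => σ s (x i)) (F j)) =
      fun j => algebraMap K (AlgebraicClosure K) (Algebra.norm K (aeval x (F j))) := funext h2
  rw [h3] at h1
  have h4 : aeval (fun j => algebraMap K (AlgebraicClosure K) (Algebra.norm K (aeval x (F j)))) p =
      algebraMap K (AlgebraicClosure K)
        (aeval (fun j => Algebra.norm K (aeval x (F j))) p) := by
    have := comp_aeval_apply (Algebra.ofId K (AlgebraicClosure K))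
      (f := fun j => Algebra.norm K (aeval x (F j))) p
    exact this.symm
  rw [h4] at h1
  exact (map_eq_zero_iff _ (algebraMap K (AlgebraicClosure K)).injective).1 h1

section

variable {K : Type} [Field K] [NumberField K]

lemma sum_ab {L : Type} [Field L] [NumberField L] [Algebra K L] (S : Finset (Pl K))
    (f : Pl L → ℝ) : ∃ T : Finset (Pl L), ∑ v ∈ S, ∑ w ∈ ab L v, f w = ∑ w ∈ T, f w := by
  classical
  refine ⟨S.biUnion fun v => ab L v, ?_⟩
  rw [Finset.sum_biUnion]
  intro v _ v' _ hne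
  rw [Function.onFun, Finset.disjoint_left]
  intro w hw hw'
  exact hne (ov_unique (mem_ab.1 hw) (mem_ab.1 hw'))

/-- few hypersurfaces -/
lemma few {n q e δ : ℕ} (F : Fin q → MvPolynomial (Fin n) K) (hF : ∀ i, (F i).IsHomogeneous e)
    (S : Finset (Pl K)) :
    ∃ C : ℝ, 0 ≤ C ∧ ∀ (L : Type) [Field L] [NumberField L] [Algebra K L], finrank K L = δ →
      ∀ x : Fin n → L, x ≠ 0 → (∀ j, aeval x (F j) ≠ 0) →
      ∑ v ∈ S, ∑ w ∈ ab L v, wt w * ∑ j, lam (av w) e (bc L (F j)) x ≤
        q * (e * logHeight x) + C := by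
  classical
  choose Cb hCb0 hCb using fun i : Fin q => liou_u (F i) e (hF i)
  have hCbs : 0 ≤ ∑ i, Cb i := Finset.sum_nonneg fun e _ => hCb0 e
  refine ⟨(∑ i, Cb i) * (finrank ℚ K * δ), by positivity, ?_⟩
  intro L _ _ _ hrL x hx hFx
  have hfq : (finrank ℚ L : ℝ) = finrank ℚ K * δ := by
    have h1 : finrank ℚ K * finrank K L = finrank ℚ L := finrank_mul_finrank ℚ K L
    rw [← h1, hrL]
    push_cast
    ring
  obtain ⟨T, hT⟩ := sum_ab (L := L) S (fun w => wt w * ∑ j, lam (av w) e (bc L (F j)) x)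
  rw [hT]
  have h1 : ∑ w ∈ T, wt w * ∑ j, lam (av w) e (bc L (F j)) x ≤
      ∑ j, ∑ w ∈ T, wt w * max 0 (lam (av w) e (bc L (F j)) x) := by
    rw [Finset.sum_comm]
    refine Finset.sum_le_sum fun w _ => ?_
    rw [Finset.mul_sum]
    exact Finset.sum_le_sum fun j _ => mul_le_mul_of_nonneg_left (le_max_right _ _) (wt_nonneg w)
  refine h1.trans ?_
  have h2 : ∑ j, ∑ w ∈ T, wt w * max 0 (lam (av w) e (bc L (F j)) x) ≤
      ∑ j, (e * logHeight x + Cb j * (finrank ℚ K * δ)) := by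
    refine Finset.sum_le_sum fun j _ => ?_
    have h3 := hCb j L T x hx (hFx j)
    rw [hfq] at h3
    exact h3
  refine h2.trans (le_of_eq ?_)
  rw [Finset.sum_add_distrib, Finset.sum_const, Finset.card_univ, Fintype.card_fin, nsmul_eq_mul,
    Finset.sum_mul]

/-- **The inequality for the points of degree `δ`.** -/
theorem red_delta {n m q N e δ : ℕ} (hδ : 1 ≤ δ) (he : 1 ≤ e)
    (G : Fin m → MvPolynomial (Fin n) K) (g : Fin m → ℕ) (hG : ∀ k, (G k).IsHomogeneous (g k))
    (F : Fin q → MvPolynomial (Fin n) K) (hF : ∀ i, (F i).IsHomogeneous e)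
    (hgp : ∀ J : Fin (N + 1) ↪ Fin q, ∀ (E : Type) [Field E] [Algebra K E] (x : Fin n → E),
      (∀ k, aeval x (G k) = 0) → (∀ k, aeval x (F (J k)) = 0) → x = 0) {ε : ℝ} (hε : 0 < ε)
    (S : Finset (Pl K)) :
    ∃ C : ℝ, 0 ≤ C ∧ ∀ (L : Type) [Field L] [NumberField L] [Algebra K L], finrank K L = δ →
      ∀ x : Fin n → L, x ≠ 0 → (∀ k, aeval x (G k) = 0) → (∀ j, aeval x (F j) ≠ 0) →
      ∑ v ∈ S, ∑ w ∈ ab L v, wt w * ∑ j, lam (av w) e (bc L (F j)) x ≤
        (2 * (N * δ) + ε) * (e * logHeight x) + C := by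
  classical
  by_cases hq : q ≤ N * δ
  · obtain ⟨C, hC0, hC⟩ := few (δ := δ) F hF S
    refine ⟨C, hC0, fun L _ _ _ hL x hx _ hFx => (hC L hL x hx hFx).trans ?_⟩
    have hh := logHeight_nonneg x
    have h1 : (q : ℝ) ≤ N * δ := by exact_mod_cast hq
    have h2 : (0 : ℝ) ≤ N * δ := by positivity
    have h3 : 0 ≤ e * logHeight x := by positivity
    have h4 : (q : ℝ) * (e * logHeight x) ≤ (2 * (N * δ) + ε) * (e * logHeight x) :=
      mul_le_mul_of_nonneg_right (by linarith) h3
    linarith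
  push Not at hq
  have h5 : ∀ (K L : Type) [Field K] [NumberField K] [Field L] [NumberField L] [Algebra K L]
      (v : Pl K) (z : L), z ≠ 0 →
      ∑ w ∈ ab L v, wt w * Real.log (av w z) = wt v * Real.log (av v (Algebra.norm K z)) :=
    fun K L _ _ _ _ _ v z hz => Pool.Agent.H738.Two5.norm_places v z hz
  obtain ⟨I0, hI0, hI0m, hI0s⟩ := Pool.Agent.H264.TwoT4.prime_cond (N := N) hδ he G g hG F hF hgp
  obtain ⟨C, hC0, hC⟩ := gt hI0 (N := N * δ) hI0s hε S
  obtain ⟨C', hC'0, hC'⟩ := Pool.Agent.H249.Two7a.height_norm_le h5 F hF δ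
  choose Cv hCv0 hCv using fun v : Pl K =>
    Pool.Agent.H996.Two.nrm_norm_ge (δ := δ) h5 hq G g hG F hF hgp v
  have hCvs : 0 ≤ ∑ v ∈ S, Cv v := Finset.sum_nonneg fun v _ => hCv0 v
  refine ⟨C + (2 * (N * δ) + ε) * C' + q * ∑ v ∈ S, Cv v, by positivity,
    fun L _ _ _ hL x hx hGx hFx => ?_⟩
  have hfin : FiniteDimensional K L := Module.Finite.of_restrictScalars_finite ℚ K L
  set y : Fin q → K := fun j => Algebra.norm K (aeval x (F j)) with hy
  have hy0 : ∀ j, y j ≠ 0 := fun j => by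
    rw [hy]
    exact (Algebra.norm_ne_zero_iff (R := K)).2 (hFx j)
  have h1 := hC y hy0 (fun p hp => norm_mem hL G F p (fun E _ _ x hx => hI0m E x hx p hp) x hGx)
  have h2 := hC' L hL.le x hx hFx
  have h3 : ∀ v ∈ S, ∑ w ∈ ab L v, wt w * ∑ j, lam (av w) e (bc L (F j)) x ≤
      ∑ j, lc v y j + q * Cv v := by
    intro v _
    have h4 := hCv v L hL.le x hx hGx hFx
    have h6 : ∑ w ∈ ab L v, wt w * ∑ j, lam (av w) e (bc L (F j)) x =
        ∑ j, (e * ∑ w ∈ ab L v, wt w * Real.log (nrm (av w) x) -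
          wt v * Real.log (av v (y j))) := by
      have h7 : ∀ j, wt v * Real.log (av v (y j)) =
          ∑ w ∈ ab L v, wt w * Real.log (av w (aeval x (F j))) := fun j =>
        (h5 K L v _ (hFx j)).symm
      simp_rw [Finset.mul_sum, h7]
      rw [Finset.sum_comm]
      refine Finset.sum_congr rfl fun j _ => ?_
      rw [← Finset.sum_sub_distrib]
      refine Finset.sum_congr rfl fun w _ => ?_
      have h8 : eval x (bc L (F j)) = aeval x (F j) := eval_bc _ _
      rw [lam_eq (av w) e _ hx (by rw [h8]; exact hFx j), h8]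
      ring
    rw [h6]
    have h9 : (q : ℝ) * Cv v = ∑ _j : Fin q, Cv v := by
      rw [Finset.sum_const, Finset.card_univ, Fintype.card_fin, nsmul_eq_mul]
    rw [h9, ← Finset.sum_add_distrib]
    refine Finset.sum_le_sum fun j _ => ?_
    unfold lc
    rw [mul_sub]
    linarith
  refine (Finset.sum_le_sum h3).trans ?_
  rw [Finset.sum_add_distrib, ← Finset.mul_sum]
  have h10 : (2 * ((N * δ : ℕ) : ℝ) + ε) * logHeight y ≤
      (2 * ((N * δ : ℕ) : ℝ) + ε) * (e * logHeight x + C') :=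
    mul_le_mul_of_nonneg_left h2 (by positivity)
  push_cast at h1 h10
  linarith

/-- **The inequality for the points of degree at most `r`.** -/
theorem red_r {n m q N e r : ℕ} (he : 1 ≤ e)
    (G : Fin m → MvPolynomial (Fin n) K) (g : Fin m → ℕ) (hG : ∀ k, (G k).IsHomogeneous (g k))
    (F : Fin q → MvPolynomial (Fin n) K) (hF : ∀ i, (F i).IsHomogeneous e)
    (hgp : ∀ J : Fin (N + 1) ↪ Fin q, ∀ (E : Type) [Field E] [Algebra K E] (x : Fin n → E),
      (∀ k, aeval x (G k) = 0) → (∀ k, aeval x (F (J k)) = 0) → x = 0) {ε : ℝ} (hε : 0 < ε)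
    (S : Finset (Pl K)) :
    ∃ C : ℝ, 0 ≤ C ∧ ∀ (L : Type) [Field L] [NumberField L] [Algebra K L], finrank K L ≤ r →
      ∀ x : Fin n → L, x ≠ 0 → (∀ k, aeval x (G k) = 0) → (∀ j, aeval x (F j) ≠ 0) →
      ∑ v ∈ S, ∑ w ∈ ab L v, wt w * ∑ j, lam (av w) e (bc L (F j)) x ≤
        (2 * (N * finrank K L) + ε) * (e * logHeight x) + C := by
  classical
  have h1 : ∀ δ : ℕ, ∃ C : ℝ, 0 ≤ C ∧ (1 ≤ δ → ∀ (L : Type) [Field L] [NumberField L]
      [Algebra K L], finrank K L = δ →
      ∀ x : Fin n → L, x ≠ 0 → (∀ k, aeval x (G k) = 0) → (∀ j, aeval x (F j) ≠ 0) →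
      ∑ v ∈ S, ∑ w ∈ ab L v, wt w * ∑ j, lam (av w) e (bc L (F j)) x ≤
        (2 * (N * δ) + ε) * (e * logHeight x) + C) := by
    intro δ
    by_cases hδ : 1 ≤ δ
    · obtain ⟨C, hC0, hC⟩ := red_delta (δ := δ) hδ he G g hG F hF hgp hε S
      exact ⟨C, hC0, fun _ => hC⟩
    · exact ⟨0, le_rfl, fun h => absurd h hδ⟩
  choose C hC0 hC using h1
  refine ⟨∑ δ ∈ Finset.range (r + 1), C δ, Finset.sum_nonneg fun δ _ => hC0 δ,
    fun L _ _ _ hL x hx hGx hFx => ?_⟩
  have hfin : FiniteDimensional K L := Module.Finite.of_restrictScalars_finite ℚ K L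
  have h2 := hC (finrank K L) finrank_pos L rfl x hx hGx hFx
  have h3 : C (finrank K L) ≤ ∑ δ ∈ Finset.range (r + 1), C δ :=
    Finset.single_le_sum (f := C) (fun δ _ => hC0 δ) (Finset.mem_range.2 (by omega))
  linarith

end

end Pool.Agent.H426.Two
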